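import Pool.Agent.Y321.PJ.Top
import Pool.Agent.H721R2.Shadow

set_option autoImplicit false

open Filter Topology Set Metric

namespace Pool.Agent.Y321.PJ

open Pool.Agent.H789R2.AN Pool.Agent.H721R2

section shadow

variable {X E : Type*} [MetricSpace X] [NormedAddCommGroup E] [NormedSpace ℝ E]

/-- Periodic pseudo-orbits are shadowed by periodic orbits. -/
theorem per_shadow [CompactSpace X] (S : HypSys X E) {c : ℝ} (h : LP S.g c) :
    ∃ ε₀ > 0, ∀ ε ≤ ε₀, ∀ (q : ℕ) (z : ℕ → X), 1 ≤ q →
      (∀ i, i + 1 < q → dist (S.g (z i)) (z (i + 1)) ≤ ε) →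
      dist (S.g (z (q - 1))) (z 0) ≤ ε →
      ∃ p, S.g^[q] p = p ∧ ∀ i < q, dist (S.g^[i] p) (z i) ≤ 8 * S.K * ε := by
  have hK := S.one_le_K
  have hK0 : 0 < S.K := by linarith
  obtain ⟨ε₁, hε₁, hsh⟩ := S.shadowing
  refine ⟨min ε₁ (c / (16 * S.K)), lt_min hε₁ (div_pos h.c_pos (by positivity)),
    fun ε hε q z hq1 hz hz0 => ?_⟩
  have hε1 : ε ≤ ε₁ := hε.trans (min_le_left _ _)
  have hε2 : 16 * S.K * ε ≤ c := by
    have : ε ≤ c / (16 * S.K) := hε.trans (min_le_right _ _)
    rw [le_div_iff₀ (by positivity)] at this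
    linarith
  have hε0 : 0 ≤ ε := le_trans dist_nonneg hz0
  have hq0 : (0 : ℤ) < q := by exact_mod_cast hq1
  let z' : ℤ → X := fun n => z (n % q).toNat
  have hz' : ∀ n, dist (S.g (z' n)) (z' (n + 1)) ≤ ε := by
    intro n
    have h0 : 0 ≤ n % q := Int.emod_nonneg n hq0.ne'
    have h1 : n % q < q := Int.emod_lt_of_pos n hq0
    show dist (S.g (z (n % q).toNat)) (z ((n + 1) % q).toNat) ≤ ε
    by_cases h2 : n % q + 1 < q
    · have h3 : (n + 1) % q = n % q + 1 := by
        rw [Int.add_emod]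
        have h5 : (1 : ℤ) % q = 1 := Int.emod_eq_of_lt (by norm_num) (by omega)
        rw [h5]
        exact Int.emod_eq_of_lt (by omega) h2
      rw [h3]
      have h4 : (n % q + 1).toNat = (n % q).toNat + 1 := by omega
      rw [h4]
      exact hz _ (by omega)
    · have h3 : n % q = q - 1 := by omega
      have h4 : (n + 1) % q = 0 := by
        have : n + 1 = q * (n / q) + q := by
          have := Int.mul_ediv_add_emod n q
          omega
        rw [this]
        simp
      rw [h4, h3]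
      have h5 : ((q : ℤ) - 1).toNat = q - 1 := by omega
      rw [h5]
      simp only [Int.toNat_zero]
      exact hz0
  obtain ⟨w, hw1, hw2⟩ := hsh ε hε1 z' hz'
  have hzq : ∀ n, z' (n + q) = z' n := by
    intro n
    show z ((n + q) % q).toNat = z (n % q).toNat
    rw [Int.add_emod_right]
  have hww : ∀ n, dist (w n) (w (n + q)) ≤ c := by
    intro n
    have h1 := hw2 n
    have h2 := hw2 (n + q)
    rw [hzq] at h2
    have h3 := dist_triangle (w n) (z' n) (w (n + q))
    rw [dist_comm (z' n)] at h3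
    linarith
  have hw' : ∀ n, w (n + 1 + q) = S.g (w (n + q)) := by
    intro n
    have := hw1 (n + q)
    rw [← this]
    congr 1
    ring
  have e1 : ∀ k : ℕ, S.g^[k] (w 0) = w k := fun k => (S.orbit_nat w hw1 k).symm
  have e2 : ∀ k : ℕ, S.g^[k] (w q) = w (k + q) := fun k => by
    have := S.orbit_nat (fun n => w (n + q)) hw' k
    simp only [zero_add] at this
    exact this.symm
  have e3 : ∀ k : ℕ, S.g.symm^[k] (w 0) = w (-k) := fun k => (S.orbit_neg w hw1 k).symm
  have e4 : ∀ k : ℕ, S.g.symm^[k] (w q) = w (-k + q) := fun k => by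
    have := S.orbit_neg (fun n => w (n + q)) hw' k
    simp only [zero_add] at this
    exact this.symm
  have hS : SR S.g c (w 0) (w q) := by
    intro k
    rw [e1, e2]
    exact hww k
  have hU : SR S.g.symm c (w 0) (w q) := by
    intro k
    rw [e3, e4]
    exact hww (-k)
  have heq := expansive h hS hU
  refine ⟨w 0, ?_, fun i hi => ?_⟩
  · rw [e1 q]
    exact heq.symm
  · rw [e1 i]
    have h1 := hw2 i
    have h2 : z' i = z i := by
      show z ((i : ℤ) % q).toNat = z i
      rw [Int.emod_eq_of_lt (by omega) (by omega)]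
      simp
    rw [h2] at h1
    exact h1

end shadow

section clos

variable {X : Type*} [MetricSpace X]

/-- Periodic points near an attractor are in the attractor. -/
theorem per_mem {g : X ≃ₜ X} {c : ℝ} (h : LP g c) {A : Set X} (hA : IsAtt g A) {p a : X}
    {q : ℕ} (hq : 1 ≤ q) (hp : g^[q] p = p) (ha : a ∈ A) (hpa : SR g c p a) : p ∈ A := by
  rw [← hA.closed.closure_eq, Metric.mem_closure_iff]
  intro ε hε
  obtain ⟨N, hN⟩ := eventually_atTop.mp ((tendsto_order.mp (geo_tendsto c)).2 ε hε)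
  have h1 := h.cS _ _ hpa (q * N)
  have h2 : g^[q * N] p = p := by
    rw [Function.iterate_mul]
    exact Function.iterate_fixed hp N
  rw [h2] at h1
  exact ⟨_, (inv_iter hA.inv _ a).mpr ha, lt_of_le_of_lt h1 (hN _ (by nlinarith))⟩

variable {E : Type*} [NormedAddCommGroup E] [NormedSpace ℝ E]

/-- Closing orbit segments of a minimal attractor. -/
theorem closing [CompactSpace X] (S : HypSys X E) {c : ℝ} (h : LP S.g c) {A : Set X}
    (hA : MinAtt S.g A) : ∃ K : ℕ, ∀ x ∈ A, ∀ n : ℕ, ∃ m ≤ K, ∃ p ∈ A, 1 ≤ n + m ∧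
      S.g^[n + m] p = p ∧
      ∀ i ≤ n, dist (S.g^[i] x) (S.g^[i] p) ≤ c * (1 / 2) ^ i + c * (1 / 2) ^ (n - i) := by
  have hK := S.one_le_K
  have hK0 : 0 < S.K := by linarith
  have hc := h.c_pos
  obtain ⟨ε₀, hε₀, hper⟩ := per_shadow S h
  obtain ⟨δ, hδ, hlp⟩ := h.lp (c / 2) (by linarith)
  obtain ⟨δ', hδ', hnear⟩ := h.near
  set ρ := min (min δ δ') (c / 2) with hρ
  have hρ0 : 0 < ρ := lt_min (lt_min hδ hδ') (by linarith)
  set ε := min (ε₀ / 2) (ρ / (18 * S.K)) with hε
  have hε0 : 0 < ε := lt_min (by linarith) (by positivity)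
  have hε1 : 2 * ε ≤ ε₀ := by
    have : ε ≤ ε₀ / 2 := min_le_left _ _
    linarith
  have hε2 : 18 * S.K * ε ≤ ρ := by
    have : ε ≤ ρ / (18 * S.K) := min_le_right _ _
    rw [le_div_iff₀ (by positivity)] at this
    linarith
  have hKε : ε ≤ S.K * ε := by nlinarith
  obtain ⟨K, htr⟩ := minAtt_trans_unif h hA hε0
  refine ⟨K, fun x hx n => ?_⟩
  obtain ⟨m, hm1, hmK, w, hw1, hw2⟩ := htr (S.g^[n] x) ((inv_iter hA.1.inv n x).mpr hx) x hx
  let z : ℕ → X := fun i => if i < n then S.g^[i] x else S.g^[i - n] w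
  have hz1 : ∀ i, i < n → z i = S.g^[i] x := fun i hi => if_pos hi
  have hz2 : ∀ i, n ≤ i → z i = S.g^[i - n] w := fun i hi => if_neg (by omega)
  obtain ⟨p, hp, hpz⟩ := hper (2 * ε) hε1 (n + m) z (by omega) (by
    intro i hi
    rcases lt_trichotomy (i + 1) n with h1 | h1 | h1
    · rw [hz1 i (by omega), hz1 (i + 1) h1, Function.iterate_succ_apply', dist_self]
      linarith
    · rw [hz1 i (by omega), hz2 (i + 1) (by omega), ← Function.iterate_succ_apply' S.g i x,
        h1, Nat.sub_self, dist_comm]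
      have : S.g^[i.succ] x = S.g^[n] x := by rw [← h1]
      rw [this]
      simp only [Function.iterate_zero, id_eq]
      linarith
    · rw [hz2 i (by omega), hz2 (i + 1) (by omega)]
      have : i + 1 - n = (i - n) + 1 := by omega
      rw [this, Function.iterate_succ_apply', dist_self]
      linarith) (by
    rw [hz2 (n + m - 1) (by omega)]
    have e1 : S.g (S.g^[n + m - 1 - n] w) = S.g^[m] w := by
      rw [← Function.iterate_succ_apply' S.g]
      congr 2
      omega
    rw [e1]
    rcases Nat.eq_zero_or_pos n with h0 | h0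
    · rw [hz2 0 (by omega), h0]
      rw [h0] at hw1
      simp only [Function.iterate_zero, id_eq, Nat.sub_zero] at hw1 ⊢
      have := dist_triangle (S.g^[m] w) x w
      rw [dist_comm x w] at this
      linarith
    · rw [hz1 0 h0]
      simp only [Function.iterate_zero, id_eq]
      linarith)
  have hclose : ∀ i ≤ n, dist (S.g^[i] x) (S.g^[i] p) ≤ 17 * S.K * ε := by
    intro i hi
    have h1 := hpz i (by omega)
    rw [dist_comm]
    rcases lt_or_eq_of_le hi with h2 | h2
    · rw [hz1 i h2] at h1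
      linarith
    · rw [hz2 i (by omega), h2, Nat.sub_self] at h1
      simp only [Function.iterate_zero, id_eq] at h1
      rw [h2]
      have := dist_triangle (S.g^[n] p) w (S.g^[n] x)
      linarith
  have hρδ : ρ ≤ δ := (min_le_left _ _).trans (min_le_left _ _)
  have hρδ' : ρ ≤ δ' := (min_le_left _ _).trans (min_le_right _ _)
  have hρc : ρ ≤ c / 2 := min_le_right _ _
  have hlt : 17 * S.K * ε < 18 * S.K * ε := by nlinarith [mul_pos hK0 hε0]
  have hpA : p ∈ A := by
    have h0 := hclose 0 (Nat.zero_le n)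
    simp only [Function.iterate_zero, id_eq] at h0
    obtain ⟨a, ha, hpa⟩ := hnear A hA.1 x hx p (by rw [dist_comm]; linarith)
    exact per_mem h hA.1 (q := n + m) (by omega) hp ha hpa
  refine ⟨m, hmK, p, hpA, by omega, hp, ?_⟩
  have h3 : dist (S.g^[n] p) (S.g^[n] x) < δ := by
    have := hclose n le_rfl
    rw [dist_comm]
    linarith
  obtain ⟨z', hz'1, hz'2⟩ := hlp _ _ h3
  have hz'3 := h.cU _ _ (hz'2.mono (by linarith))
  have eback : ∀ (y : X) (i : ℕ), i ≤ n → S.g^[i] (S.g.symm^[n] y) = S.g.symm^[n - i] y := by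
    intro y i hi
    have : S.g.symm^[n] y = S.g.symm^[i] (S.g.symm^[n - i] y) := by
      rw [← Function.iterate_add_apply]; congr 1; omega
    rw [this, iterR]
  have eback' : ∀ (y : X) (i : ℕ), i ≤ n → S.g.symm^[n - i] (S.g^[n] y) = S.g^[i] y := by
    intro y i hi
    have : S.g^[n] y = S.g^[n - i] (S.g^[i] y) := by
      rw [← Function.iterate_add_apply]; congr 1; omega
    rw [this, iterL]
  have hSR : SR S.g c p (S.g.symm^[n] z') := by
    intro k
    rcases le_total k n with hk | hk
    · rw [eback _ _ hk]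
      have h4 := hz'2 (n - k)
      rw [eback' _ _ hk] at h4
      have h5 := hclose k hk
      have := dist_triangle (S.g^[k] p) (S.g^[k] x) (S.g.symm^[n - k] z')
      rw [dist_comm (S.g^[k] x) (S.g^[k] p)] at h5
      linarith
    · have h4 := hz'1 (k - n)
      have e1 : S.g^[k - n] (S.g^[n] p) = S.g^[k] p := by
        rw [← Function.iterate_add_apply]; congr 1; omega
      have e2 : S.g^[k] (S.g.symm^[n] z') = S.g^[k - n] z' := by
        have : S.g^[k] (S.g.symm^[n] z') = S.g^[k - n] (S.g^[n] (S.g.symm^[n] z')) := by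
          rw [← Function.iterate_add_apply S.g (k - n) n]; congr 1; omega
        rw [this, iterR]
      rw [e1] at h4
      rw [e2]
      linarith
  intro i hi
  have h4 := h.cS _ _ hSR i
  rw [eback _ _ hi] at h4
  have h5 := hz'3 (n - i)
  rw [eback' _ _ hi] at h5
  have := dist_triangle (S.g^[i] x) (S.g.symm^[n - i] z') (S.g^[i] p)
  rw [dist_comm (S.g.symm^[n - i] z') (S.g^[i] p)] at this
  linarith

/-- Birkhoff sums. -/
def birk (g : X ≃ₜ X) (φ : X → ℝ) (n : ℕ) (x : X) : ℝ := ∑ i ∈ Finset.range n, φ (g^[i] x)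

theorem sum_half (n : ℕ) : ∑ i ∈ Finset.range n, (1 / 2 : ℝ) ^ i ≤ 2 := by
  have := Summable.sum_le_tsum (f := fun i : ℕ => (1 / 2 : ℝ) ^ i) (Finset.range n)
    (fun i _ => by positivity) summable_geometric_two
  rwa [tsum_geometric_two] at this

theorem sum_half' (n : ℕ) : ∑ i ∈ Finset.range n, (1 / 2 : ℝ) ^ (n - i) ≤ 2 := by
  have h1 := Finset.sum_range_reflect (fun i : ℕ => (1 / 2 : ℝ) ^ (i + 1)) n
  have h2 : ∑ i ∈ Finset.range n, (1 / 2 : ℝ) ^ (n - i) =
      ∑ j ∈ Finset.range n, (1 / 2 : ℝ) ^ (n - 1 - j + 1) := by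
    apply Finset.sum_congr rfl
    intro i hi
    rw [Finset.mem_range] at hi
    congr 1
    omega
  rw [h2, h1]
  refine le_trans ?_ (sum_half n)
  apply Finset.sum_le_sum
  intro i _
  exact pow_le_pow_of_le_one (by norm_num) (by norm_num) (by omega)

/-- Birkhoff sums are bounded below on a minimal attractor, when they are nonnegative at the
periodic points. -/
theorem birk_bound [CompactSpace X] (S : HypSys X E) {c : ℝ} (h : LP S.g c) {A : Set X}
    (hA : MinAtt S.g A) {φ : X → ℝ} {L B : ℝ} (hL : 0 ≤ L)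
    (hφ : ∀ x y, |φ x - φ y| ≤ L * dist x y) (hB : ∀ x, |φ x| ≤ B)
    (hper : ∀ p ∈ A, ∀ q : ℕ, 1 ≤ q → S.g^[q] p = p → 0 ≤ birk S.g φ q p) :
    ∃ C, ∀ a ∈ A, ∀ y, SR S.g c y a → ∀ n, -C ≤ birk S.g φ n y := by
  obtain ⟨K, hcl⟩ := closing S h hA
  have hc := h.c_pos
  have step : ∀ x ∈ A, ∀ n, -(K * B + L * (c * 4)) ≤ birk S.g φ n x := by
    intro x hx n
    obtain ⟨m, hm, p, hpA, hnm, hp, hdist⟩ := hcl x hx n
    have h1 := hper p hpA (n + m) hnm hp
    have h2 : birk S.g φ (n + m) p = birk S.g φ n p + ∑ i ∈ Finset.range m, φ (S.g^[n + i] p) := by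
      rw [birk, Finset.sum_range_add]; rfl
    have hB0 : 0 ≤ B := (abs_nonneg _).trans (hB x)
    have h3 : ∑ i ∈ Finset.range m, φ (S.g^[n + i] p) ≤ K * B := by
      calc ∑ i ∈ Finset.range m, φ (S.g^[n + i] p) ≤ ∑ i ∈ Finset.range m, B :=
            Finset.sum_le_sum fun i _ => (le_abs_self _).trans (hB _)
        _ = m * B := by rw [Finset.sum_const, Finset.card_range, nsmul_eq_mul]
        _ ≤ K * B := mul_le_mul_of_nonneg_right (by exact_mod_cast hm) hB0
    have h4 : birk S.g φ n p - birk S.g φ n x ≤ L * (c * 4) := by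
      rw [birk, birk, ← Finset.sum_sub_distrib]
      calc ∑ i ∈ Finset.range n, (φ (S.g^[i] p) - φ (S.g^[i] x))
          ≤ ∑ i ∈ Finset.range n, L * (c * ((1 / 2) ^ i + (1 / 2) ^ (n - i))) := by
            apply Finset.sum_le_sum
            intro i hi
            rw [Finset.mem_range] at hi
            have h5 := hdist i hi.le
            have h6 := (le_abs_self _).trans (hφ (S.g^[i] p) (S.g^[i] x))
            rw [dist_comm] at h6
            refine h6.trans (mul_le_mul_of_nonneg_left ?_ hL)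
            linarith
        _ = L * (c * (∑ i ∈ Finset.range n, (1 / 2 : ℝ) ^ i +
            ∑ i ∈ Finset.range n, (1 / 2 : ℝ) ^ (n - i))) := by
            rw [← Finset.sum_add_distrib, Finset.mul_sum, Finset.mul_sum]
        _ ≤ L * (c * 4) := by
            apply mul_le_mul_of_nonneg_left _ hL
            apply mul_le_mul_of_nonneg_left _ hc.le
            have := sum_half n
            have := sum_half' n
            linarith
    linarith
  refine ⟨K * B + L * (c * 4) + L * (c * 2), fun a ha y hy n => ?_⟩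
  have h1 := step a ha n
  have h2 := h.cS _ _ hy
  have h4 : birk S.g φ n a - birk S.g φ n y ≤ L * (c * 2) := by
    rw [birk, birk, ← Finset.sum_sub_distrib]
    calc ∑ i ∈ Finset.range n, (φ (S.g^[i] a) - φ (S.g^[i] y))
        ≤ ∑ i ∈ Finset.range n, L * (c * (1 / 2) ^ i) := by
          apply Finset.sum_le_sum
          intro i _
          have h6 := (le_abs_self _).trans (hφ (S.g^[i] a) (S.g^[i] y))
          rw [dist_comm] at h6
          exact h6.trans (mul_le_mul_of_nonneg_left (h2 i) hL)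
      _ = L * (c * (∑ i ∈ Finset.range n, (1 / 2 : ℝ) ^ i)) := by
          rw [Finset.mul_sum, Finset.mul_sum]
      _ ≤ L * (c * 2) := by
          apply mul_le_mul_of_nonneg_left _ hL
          exact mul_le_mul_of_nonneg_left (sum_half n) hc.le
  linarith

end clos

end Pool.Agent.Y321.PJ
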