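import Pool.Agent.Y321.PJ.Jac

set_option autoImplicit false
set_option linter.unusedSectionVars false

open scoped Manifold ContDiff Topology ENNReal
open Set Filter MeasureTheory

namespace Pool.Agent.Y321.PJ

open Pool.Agent.H721R2

section pair

variable {E : Type*} [NormedAddCommGroup E] [NormedSpace ℝ E] [FiniteDimensional ℝ E]
  {M : Type*} [TopologicalSpace M] [ChartedSpace E M] [IsManifold 𝓘(ℝ, E) ∞ M]
  {F : Type*} [NormedAddCommGroup F] [InnerProductSpace ℝ F]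

theorem image_chart (x₀ : M) (W : Set M) (hW : W ⊆ (extChartAt 𝓘(ℝ, E) x₀).source) :
    extChartAt 𝓘(ℝ, E) x₀ '' W =
      (extChartAt 𝓘(ℝ, E) x₀).target ∩ (extChartAt 𝓘(ℝ, E) x₀).symm ⁻¹' W :=
  (extChartAt 𝓘(ℝ, E) x₀).image_eq_target_inter_inv_preimage hW

theorem isOpen_image_chart (x₀ : M) (W : Set M) (hW : W ⊆ (extChartAt 𝓘(ℝ, E) x₀).source)
    (hWo : IsOpen W) : IsOpen (extChartAt 𝓘(ℝ, E) x₀ '' W) := by
  rw [image_chart x₀ W hW]
  exact (continuousOn_extChartAt_symm x₀).isOpen_inter_preimage (isOpen_extChartAt_target x₀) hWo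

variable [MeasurableSpace E] [BorelSpace E]

theorem vol_pair (ν : Measure E) [ν.IsAddHaarMeasure] (e : M → F)
    (he : ContMDiff 𝓘(ℝ, E) 𝓘(ℝ, F) 1 e)
    (hinj : ∀ x, Function.Injective (dm E e x)) (G G' : M → M)
    (hG : ContMDiff 𝓘(ℝ, E) 𝓘(ℝ, E) 1 G)
    (hG' : ContMDiff 𝓘(ℝ, E) 𝓘(ℝ, E) 1 G') (h : ∀ x, G' (G x) = x) (x₀ x₁ : M) (W : Set M)
    (hWo : IsOpen W) (hW0 : W ⊆ (extChartAt 𝓘(ℝ, E) x₀).source)
    (hW1 : ∀ x ∈ W, G x ∈ (extChartAt 𝓘(ℝ, E) x₁).source) (D : ℝ)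
    (hD : ∀ x ∈ W, D ≤ jac E e G x + lh e x₀ (extChartAt 𝓘(ℝ, E) x₀ x) -
      lh e x₁ (extChartAt 𝓘(ℝ, E) x₁ (G x))) :
    ENNReal.ofReal (Real.exp D) * ν (extChartAt 𝓘(ℝ, E) x₀ '' W) ≤
      ν (extChartAt 𝓘(ℝ, E) x₁ '' (G '' W)) := by
  set κ₀ := extChartAt 𝓘(ℝ, E) x₀ with hκ₀
  set κ₁ := extChartAt 𝓘(ℝ, E) x₁ with hκ₁
  set Φ : E → E := κ₁ ∘ G ∘ κ₀.symm with hΦ
  set s : Set E := κ₀ '' W with hs
  have hso : IsOpen s := isOpen_image_chart x₀ W hW0 hWo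
  have hsW : ∀ y ∈ s, y ∈ κ₀.target ∧ κ₀.symm y ∈ W := by
    rintro _ ⟨x, hx, rfl⟩
    refine ⟨κ₀.map_source (hW0 hx), ?_⟩
    rw [κ₀.left_inv (hW0 hx)]; exact hx
  have hdiff : ∀ y ∈ s, ContDiffAt ℝ 1 Φ y := by
    intro y hy
    obtain ⟨h1, h2⟩ := hsW y hy
    rw [← contMDiffAt_iff_contDiffAt]
    have h3 : ContMDiffAt 𝓘(ℝ, E) 𝓘(ℝ, E) 1 κ₀.symm y :=
      (contMDiffOn_extChartAt_symm (n := 1) x₀).contMDiffAt
        ((isOpen_extChartAt_target x₀).mem_nhds h1)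
    have h4 : ContMDiffAt 𝓘(ℝ, E) 𝓘(ℝ, E) 1 κ₁ (G (κ₀.symm y)) := by
      apply contMDiffAt_extChartAt'
      have := hW1 _ h2
      rwa [hκ₁, extChartAt_source] at this
    exact ContMDiffAt.comp y h4 (ContMDiffAt.comp y hG.contMDiffAt h3)
  have hinjOn : InjOn Φ s := by
    intro y hy y' hy' hyy
    obtain ⟨h1, h2⟩ := hsW y hy
    obtain ⟨h1', h2'⟩ := hsW y' hy'
    have h3 : G (κ₀.symm y) = G (κ₀.symm y') := κ₁.injOn (hW1 _ h2) (hW1 _ h2') hyy
    have h4 : κ₀.symm y = κ₀.symm y' := by rw [← h (κ₀.symm y), h3, h]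
    exact κ₀.symm.injOn (by exact h1) (by exact h1') h4
  have hdet : ∀ y ∈ s, Real.exp D ≤ |(fderiv ℝ Φ y).det| := by
    intro y hy
    obtain ⟨h1, h2⟩ := hsW y hy
    have hyx : κ₀ (κ₀.symm y) = y := κ₀.right_inv h1
    have hGx := hW1 _ h2
    have hev : hatMap (e ∘ G) x₀ =ᶠ[𝓝 y] hatMap e x₁ ∘ Φ := by
      filter_upwards [hso.mem_nhds hy] with y' hy'
      have h3 := hW1 _ (hsW y' hy').2
      show e (G (κ₀.symm y')) = e (κ₁.symm (κ₁ (G (κ₀.symm y'))))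
      rw [κ₁.left_inv h3]
    have hΦy : Φ y = κ₁ (G (κ₀.symm y)) := rfl
    have h4 : DifferentiableAt ℝ (hatMap e x₁) (Φ y) :=
      (hatMap_contDiffAt e he x₁ _ (κ₁.map_source hGx)).differentiableAt (by norm_num)
    have h5 : fderiv ℝ (hatMap (e ∘ G) x₀) y =
        (fderiv ℝ (hatMap e x₁) (Φ y)).comp (fderiv ℝ Φ y) := by
      rw [hev.fderiv_eq]
      exact fderiv_comp y h4 ((hdiff y hy).differentiableAt (by norm_num))
    have h6 := gr_hat_pos (e ∘ G) (he.comp hG) x₀ (κ₀.symm y) (hW0 h2)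
      (inj_comp e he hinj G G' hG hG' h _)
    have h7 := jac_local e he hinj G G' hG hG' h x₀ (κ₀.symm y) (hW0 h2)
    have h8 := hD _ h2
    rw [← hκ₀, hyx] at h6 h7
    rw [h7, hyx, ← hΦy] at h8
    have h9 : lh (e ∘ G) x₀ y = Real.log |(fderiv ℝ Φ y).det| + lh e x₁ (Φ y) := by
      rw [h5, gr_comp] at h6
      rw [lh, lh, h5, gr_comp]
      exact half_log h6
    have h10 : D ≤ Real.log |(fderiv ℝ Φ y).det| := by linarith
    have h11 : (fderiv ℝ Φ y).det ≠ 0 := by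
      intro h0
      rw [h5, gr_comp, h0] at h6
      simp at h6
    calc Real.exp D ≤ Real.exp (Real.log |(fderiv ℝ Φ y).det|) := Real.exp_le_exp.mpr h10
      _ = _ := Real.exp_log (abs_pos.mpr h11)
  have himg : Φ '' s = κ₁ '' (G '' W) := by
    rw [hs, ← image_comp, ← image_comp]
    apply image_congr
    intro x hx
    show κ₁ (G (κ₀.symm (κ₀ x))) = κ₁ (G x)
    rw [κ₀.left_inv (hW0 hx)]
  rw [← himg, ← lintegral_abs_det_fderiv_eq_addHaar_image ν hso.measurableSet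
    (fun y hy => (((hdiff y hy).differentiableAt (by norm_num)).hasFDerivAt).hasFDerivWithinAt)
    hinjOn, ← setLIntegral_const]
  exact setLIntegral_mono' hso.measurableSet fun y hy => ENNReal.ofReal_le_ofReal (hdet y hy)

end pair

section glob

variable {E : Type*} [NormedAddCommGroup E] [NormedSpace ℝ E] [FiniteDimensional ℝ E]
  {M : Type*} [MetricSpace M] [CompactSpace M] [ChartedSpace E M] [IsManifold 𝓘(ℝ, E) ∞ M]
  {F : Type*} [NormedAddCommGroup F] [InnerProductSpace ℝ F]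

theorem local_data (e : M → F) (he : ContMDiff 𝓘(ℝ, E) 𝓘(ℝ, F) 2 e)
    (hinj : ∀ x, Function.Injective (dm E e x)) (x₀ : M) :
    ∃ r > 0, ∃ B : ℝ, Metric.ball (extChartAt 𝓘(ℝ, E) x₀ x₀) r ⊆
      (extChartAt 𝓘(ℝ, E) x₀).target ∧
      ∀ y ∈ Metric.ball (extChartAt 𝓘(ℝ, E) x₀ x₀) r, |lh e x₀ y| ≤ B := by
  have h1 := (lh_contDiffAt e he x₀ (hinj x₀)).continuousAt
  have h2 : ∀ᶠ y in 𝓝 (extChartAt 𝓘(ℝ, E) x₀ x₀),
      |lh e x₀ y| ≤ |lh e x₀ (extChartAt 𝓘(ℝ, E) x₀ x₀)| + 1 := by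
    have := h1.abs
    exact ((tendsto_order.mp this).2 (|lh e x₀ (extChartAt 𝓘(ℝ, E) x₀ x₀)| + 1)
      (by linarith)).mono fun y hy => le_of_lt hy
  obtain ⟨r, hr, hsub⟩ := Metric.mem_nhds_iff.mp (inter_mem h2
    (extChartAt_target_mem_nhds (I := 𝓘(ℝ, E)) x₀))
  exact ⟨r, hr, _, fun y hy => (hsub hy).2, fun y hy => (hsub hy).1⟩

theorem exists_measure [MeasurableSpace M] [BorelSpace M] (e : M → F)
    (he : ContMDiff 𝓘(ℝ, E) 𝓘(ℝ, F) 2 e)
    (hinj : ∀ x, Function.Injective (dm E e x)) :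
    ∃ μ : Measure M, IsFiniteMeasure μ ∧ μ.IsOpenPosMeasure ∧ ∀ C : ℝ, ∃ κ : ℝ≥0∞, κ ≠ 0 ∧
      ∀ G G' : M → M, ContMDiff 𝓘(ℝ, E) 𝓘(ℝ, E) 1 G → ContMDiff 𝓘(ℝ, E) 𝓘(ℝ, E) 1 G' →
        (∀ x, G' (G x) = x) → (∀ x, G (G' x) = x) → ∀ W, IsOpen W →
        (∀ x ∈ W, -C ≤ jac E e G x) → κ * μ W ≤ μ (G '' W) := by
  have he1 : ContMDiff 𝓘(ℝ, E) 𝓘(ℝ, F) 1 e := he.of_le (by norm_num)
  let _ : MeasurableSpace E := borel E
  have _ : BorelSpace E := ⟨rfl⟩
  let ν : Measure E := Measure.addHaar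
  choose r hr B hball hB using local_data (E := E) e he hinj
  let N : M → Set M := fun x => (extChartAt 𝓘(ℝ, E) x).source ∩
    extChartAt 𝓘(ℝ, E) x ⁻¹' Metric.ball (extChartAt 𝓘(ℝ, E) x x) (r x)
  have hNo : ∀ x, IsOpen (N x) := fun x =>
    (continuousOn_extChartAt x).isOpen_inter_preimage (isOpen_extChartAt_source x)
      Metric.isOpen_ball
  have hNx : ∀ x, x ∈ N x := fun x =>
    ⟨mem_extChartAt_source x, Metric.mem_ball_self (hr x)⟩
  obtain ⟨t, -, ht⟩ := (isCompact_univ (X := M)).elim_nhds_subcover N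
    (fun x _ => (hNo x).mem_nhds (hNx x))
  have hcov : ∀ y, ∃ x ∈ t, y ∈ N x := by
    intro y
    have := ht (mem_univ y)
    simpa only [mem_iUnion, exists_prop] using this
  -- images in charts
  have himg : ∀ (x : M) (W : Set M), extChartAt 𝓘(ℝ, E) x '' (W ∩ N x) =
      (extChartAt 𝓘(ℝ, E) x).symm ⁻¹' W ∩ Metric.ball (extChartAt 𝓘(ℝ, E) x x) (r x) := by
    intro x W
    ext y
    constructor
    · rintro ⟨z, ⟨hzW, hzs, hzb⟩, rfl⟩
      refine ⟨?_, hzb⟩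
      show (extChartAt 𝓘(ℝ, E) x).symm (extChartAt 𝓘(ℝ, E) x z) ∈ W
      rw [(extChartAt 𝓘(ℝ, E) x).left_inv hzs]; exact hzW
    · rintro ⟨h1, h2⟩
      have h3 := hball x h2
      have h4 := (extChartAt 𝓘(ℝ, E) x).right_inv h3
      refine ⟨(extChartAt 𝓘(ℝ, E) x).symm y, ⟨h1, (extChartAt 𝓘(ℝ, E) x).map_target h3, ?_⟩, h4⟩
      rw [mem_preimage, h4]; exact h2
  have haem : ∀ x, AEMeasurable (extChartAt 𝓘(ℝ, E) x).symm
      (ν.restrict (Metric.ball (extChartAt 𝓘(ℝ, E) x x) (r x))) := fun x =>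
    ((continuousOn_extChartAt_symm x).mono (hball x)).aemeasurable measurableSet_ball
  let m : M → Measure M := fun x =>
    (ν.restrict (Metric.ball (extChartAt 𝓘(ℝ, E) x x) (r x))).map (extChartAt 𝓘(ℝ, E) x).symm
  have hm : ∀ (x : M) (W : Set M), IsOpen W → m x W = ν (extChartAt 𝓘(ℝ, E) x '' (W ∩ N x)) := by
    intro x W hW
    rw [himg]
    show (Measure.map _ _) W = _
    rw [Measure.map_apply_of_aemeasurable (haem x) hW.measurableSet]
    have h1 : (extChartAt 𝓘(ℝ, E) x).symm ⁻¹' W ∩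
        Metric.ball (extChartAt 𝓘(ℝ, E) x x) (r x) = extChartAt 𝓘(ℝ, E) x '' (W ∩ N x) :=
      (himg x W).symm
    rw [Measure.restrict_apply' measurableSet_ball]
  have hsum : ∀ W : Set M, (∑ x ∈ t, m x) W = ∑ x ∈ t, m x W := fun W =>
    Measure.finsetSum_apply t m W
  refine ⟨∑ x ∈ t, m x, ⟨?_⟩, ⟨?_⟩, fun C => ?_⟩
  · rw [hsum]
    apply ENNReal.sum_lt_top.mpr
    intro x _
    rw [hm x univ isOpen_univ, himg, preimage_univ, univ_inter]
    exact measure_ball_lt_top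
  · intro W hW hWn
    obtain ⟨y, hy⟩ := hWn
    obtain ⟨x, hx, hyx⟩ := hcov y
    rw [hsum]
    intro h0
    have h1 := (Finset.sum_eq_zero_iff.mp h0) x hx
    rw [hm x W hW] at h1
    have h2 : IsOpen (extChartAt 𝓘(ℝ, E) x '' (W ∩ N x)) :=
      isOpen_image_chart x _ (fun z hz => hz.2.1) (hW.inter (hNo x))
    exact (h2.measure_pos ν ⟨_, y, ⟨hy, hyx⟩, rfl⟩).ne' h1
  · set Bt := ∑ x ∈ t, |B x| with hBt
    have hBle : ∀ x ∈ t, B x ≤ Bt := fun x hx =>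
      (le_abs_self _).trans (Finset.single_le_sum (f := fun x => |B x|)
        (fun i _ => abs_nonneg _) hx)
    set D : ℝ := -C - Bt - Bt with hD
    set k : ℝ≥0∞ := (t.card : ℝ≥0∞) with hk
    have hkt : k ≠ ⊤ := ENNReal.natCast_ne_top _
    refine ⟨(k * k + 1)⁻¹ * ENNReal.ofReal (Real.exp D), ?_, ?_⟩
    · apply mul_ne_zero
      · exact ENNReal.inv_ne_zero.mpr (ENNReal.add_ne_top.mpr
          ⟨ENNReal.mul_ne_top hkt hkt, ENNReal.one_ne_top⟩)
      · exact (ENNReal.ofReal_pos.mpr (Real.exp_pos D)).ne'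
    · intro G G' hG hG' h h' W hW hWC
      have hGo : IsOpen (G '' W) := by
        have : G '' W = G' ⁻¹' W := by
          ext y
          constructor
          · rintro ⟨x, hx, rfl⟩
            show G' (G x) ∈ W
            rw [h]; exact hx
          · intro hy
            exact ⟨G' y, hy, h' y⟩
        rw [this]
        exact hW.preimage hG'.continuous
      have hij : ∀ i ∈ t, ∀ j ∈ t, ENNReal.ofReal (Real.exp D) *
          ν (extChartAt 𝓘(ℝ, E) i '' (W ∩ N i ∩ G ⁻¹' N j)) ≤ (∑ x ∈ t, m x) (G '' W) := by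
        intro i hi j hj
        have h1 := vol_pair ν e he1 hinj G G' hG hG' h i j (W ∩ N i ∩ G ⁻¹' N j)
          ((hW.inter (hNo i)).inter ((hNo j).preimage hG.continuous))
          (fun x hx => hx.1.2.1) (fun x hx => hx.2.1) D (by
            rintro x ⟨⟨hxW, hxi⟩, hxj⟩
            have t1 := hWC x hxW
            have t2 := hB i _ hxi.2
            have t3 := hB j _ hxj.2
            have t4 := hBle i hi
            have t5 := hBle j hj
            have t6 := (abs_le.mp t2).1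
            have t7 := (abs_le.mp t3).2
            rw [hD]
            linarith)
        refine h1.trans ?_
        have h2 : ν (extChartAt 𝓘(ℝ, E) j '' (G '' (W ∩ N i ∩ G ⁻¹' N j))) ≤ m j (G '' W) := by
          rw [hm j _ hGo]
          apply measure_mono
          apply image_mono
          rintro _ ⟨x, hx, rfl⟩
          exact ⟨⟨x, hx.1.1, rfl⟩, hx.2⟩
        refine h2.trans ?_
        rw [hsum]
        exact Finset.single_le_sum (f := fun x => m x (G '' W)) (fun _ _ => zero_le) hj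
      have hi : ∀ i ∈ t, ENNReal.ofReal (Real.exp D) * m i W ≤
          k * (∑ x ∈ t, m x) (G '' W) := by
        intro i hi
        have h1 : m i W ≤ ∑ j ∈ t, ν (extChartAt 𝓘(ℝ, E) i '' (W ∩ N i ∩ G ⁻¹' N j)) := by
          rw [hm i W hW]
          refine le_trans (measure_mono ?_) (measure_biUnion_finset_le t _)
          rintro _ ⟨x, hx, rfl⟩
          obtain ⟨j, hj, hxj⟩ := hcov (G x)
          exact mem_biUnion (by exact hj) ⟨x, ⟨hx, hxj⟩, rfl⟩
        calc ENNReal.ofReal (Real.exp D) * m i W ≤ ENNReal.ofReal (Real.exp D) *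
              ∑ j ∈ t, ν (extChartAt 𝓘(ℝ, E) i '' (W ∩ N i ∩ G ⁻¹' N j)) := by gcongr
          _ = ∑ j ∈ t, ENNReal.ofReal (Real.exp D) *
              ν (extChartAt 𝓘(ℝ, E) i '' (W ∩ N i ∩ G ⁻¹' N j)) := Finset.mul_sum _ _ _
          _ ≤ ∑ j ∈ t, (∑ x ∈ t, m x) (G '' W) := Finset.sum_le_sum fun j hj => hij i hi j hj
          _ = k * (∑ x ∈ t, m x) (G '' W) := by rw [Finset.sum_const, nsmul_eq_mul]
      have hfin : ENNReal.ofReal (Real.exp D) * (∑ x ∈ t, m x) W ≤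
          (k * k + 1) * (∑ x ∈ t, m x) (G '' W) := by
        calc ENNReal.ofReal (Real.exp D) * (∑ x ∈ t, m x) W
            = ∑ i ∈ t, ENNReal.ofReal (Real.exp D) * m i W := by rw [hsum, Finset.mul_sum]
          _ ≤ ∑ i ∈ t, k * (∑ x ∈ t, m x) (G '' W) := Finset.sum_le_sum hi
          _ = k * k * (∑ x ∈ t, m x) (G '' W) := by
              rw [Finset.sum_const, nsmul_eq_mul, mul_assoc]
          _ ≤ (k * k + 1) * (∑ x ∈ t, m x) (G '' W) := by
              gcongr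
              exact le_self_add
      rw [mul_assoc]
      rw [ENNReal.inv_mul_le_iff]
      · exact hfin
      · exact (lt_of_lt_of_le one_pos le_add_self).ne'
      · exact ENNReal.add_ne_top.mpr ⟨ENNReal.mul_ne_top hkt hkt, ENNReal.one_ne_top⟩

end glob

end Pool.Agent.Y321.PJ
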