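import Pool.Agent.Y321.PJ.Abs
import Pool.Agent.Y321.PJ.Meas
import Pool.Agent.H789R2.AN.Man

set_option autoImplicit false
set_option linter.unusedSectionVars false

open scoped Manifold ContDiff Topology ENNReal
open Set Filter MeasureTheory

namespace Pool.Agent.Y321.PJ

open Pool.Agent.H789R2.AN Pool.Agent.H721R2

section sys

variable {E₀ : Type*} [NormedAddCommGroup E₀] [NormedSpace ℝ E₀] [FiniteDimensional ℝ E₀]
  {M : Type*} [MetricSpace M] [CompactSpace M] [ChartedSpace E₀ M] [IsManifold 𝓘(ℝ, E₀) 1 M]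
  {F : Type*} [NormedAddCommGroup F] [NormedSpace ℝ F]

theorem exists_sys1 {e : M → F} (hiso : ∀ x y, dist x y = ‖e x - e y‖)
    (he : ContMDiff 𝓘(ℝ, E₀) 𝓘(ℝ, F) 1 e) (hinj : ∀ x, Function.Injective (dm E₀ e x))
    (f : Diffeomorph 𝓘(ℝ, E₀) 𝓘(ℝ, E₀) M M 1)
    (Es Eu : ∀ x : M, Submodule ℝ (TangentSpace 𝓘(ℝ, E₀) x)) (h : IsAnosov f Es Eu) :
    ∃ (n : ℕ) (S : HypSys M F), 1 ≤ n ∧ S.g = iterHomeo f.toHomeomorph n := by
  obtain ⟨C, a, b, Ls, Lu, hE⟩ := eanosov_of_isAnosov e he hinj f Es Eu h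
  obtain ⟨K, hK, hang⟩ := hE.angle he hinj
  have t1 : Tendsto (fun n : ℕ => K * (C * a ^ n)) atTop (𝓝 0) := by
    have := ((tendsto_pow_atTop_nhds_zero_of_lt_one hE.a_pos.le hE.a_lt).const_mul C).const_mul K
    simpa using this
  have t2 : Tendsto (fun n : ℕ => K * (C * b ^ n)) atTop (𝓝 0) := by
    have := ((tendsto_pow_atTop_nhds_zero_of_lt_one hE.b_pos.le hE.b_lt).const_mul C).const_mul K
    simpa using this
  obtain ⟨n, ⟨h1, h2⟩, h3⟩ := ((((tendsto_order.mp t1).2 (1 / 16) (by norm_num)).and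
    ((tendsto_order.mp t2).2 (1 / 16) (by norm_num))).and (eventually_ge_atTop 1)).exists
  obtain ⟨S, hS, -⟩ := exists_hypSys' hiso he hinj hE K hK hang n h1.le h2.le
  exact ⟨n, S, h3, hS⟩

end sys

/-- `|det Dfⁿ(p)|`, for a point `p` with `fⁿ(p) = p`. -/
noncomputable def perJac (E : Type*) [NormedAddCommGroup E] [NormedSpace ℝ E]
    {M : Type*} [TopologicalSpace M] [ChartedSpace E M] (f : M → M) (n : ℕ) (p : M) : ℝ :=
  |(mfderiv 𝓘(ℝ, E) 𝓘(ℝ, E) (f^[n]) p : E →L[ℝ] E).det|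

section main

variable {E : Type*} [NormedAddCommGroup E] [NormedSpace ℝ E] [FiniteDimensional ℝ E]
  {M : Type*} [TopologicalSpace M] [T2Space M] [CompactSpace M] [ConnectedSpace M]
  [ChartedSpace E M] [IsManifold 𝓘(ℝ, E) ∞ M]

theorem smooth_iter2 (G : M → M) (hG : ContMDiff 𝓘(ℝ, E) 𝓘(ℝ, E) 2 G) (n : ℕ) :
    ContMDiff 𝓘(ℝ, E) 𝓘(ℝ, E) 2 (G^[n]) := by
  induction n with
  | zero => exact contMDiff_id
  | succ n ih => exact ih.comp hG

theorem main (f : Diffeomorph 𝓘(ℝ, E) 𝓘(ℝ, E) M M 1)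
    (hf2 : ContMDiff 𝓘(ℝ, E) 𝓘(ℝ, E) 2 f) (hf2' : ContMDiff 𝓘(ℝ, E) 𝓘(ℝ, E) 2 f.symm)
    (Es Eu : ∀ x : M, Submodule ℝ (TangentSpace 𝓘(ℝ, E) x)) (hA : IsAnosov f Es Eu)
    (hnt : ¬ TopTransitive f) :
    ∃ (n : ℕ) (P Q : Set M), 1 ≤ n ∧ P.Finite ∧ Q.Finite ∧
      (∀ p ∈ P, f^[n] p = p ∧ perJac E f n p < 1) ∧
      (∀ q ∈ Q, f^[n] q = q ∧ 1 < perJac E f n q) ∧
      Dense {x : M | (∃ p ∈ P, Tendsto (fun k : ℕ => f^[n * k] x) atTop (𝓝 p)) ∧
        ∃ q ∈ Q, Tendsto (fun k : ℕ => f.symm^[n * k] x) atTop (𝓝 q)} := by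
  obtain ⟨m, e, he, hemb, hinj⟩ := exists_embedding_euclidean_of_compact (I := 𝓘(ℝ, E)) (M := M)
  let _ : MetricSpace M := hemb.isEmbedding.comapMetricSpace e
  have hiso : ∀ x y : M, dist x y = ‖e x - e y‖ := fun x y => dist_eq_norm (e x) (e y)
  have he1 : ContMDiff 𝓘(ℝ, E) (𝓡 m) 1 e := he.of_le (by simp)
  have he2 : ContMDiff 𝓘(ℝ, E) (𝓡 m) 2 e := he.of_le ENat.LEInfty.out
  obtain ⟨N, S, hN, hg⟩ := exists_sys1 hiso he1 hinj f Es Eu hA
  let _ : MeasurableSpace M := borel M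
  have _ : BorelSpace M := ⟨rfl⟩
  set G : M → M := f^[N] with hG
  set G' : M → M := f.symm^[N] with hG'
  have hgG : ∀ x, S.g x = G x := fun x => by rw [hg]; rfl
  have hgG' : ∀ x, S.g.symm x = G' x := fun x => by rw [hg]; rfl
  have hgG1 : (S.g : M → M) = G := funext hgG
  have hgG1' : (S.g.symm : M → M) = G' := funext hgG'
  have hGs : ContMDiff 𝓘(ℝ, E) 𝓘(ℝ, E) 2 G := smooth_iter2 f hf2 N
  have hGs' : ContMDiff 𝓘(ℝ, E) 𝓘(ℝ, E) 2 G' := smooth_iter2 f.symm hf2' N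
  have hGs1 : ContMDiff 𝓘(ℝ, E) 𝓘(ℝ, E) 1 G := hGs.of_le (by norm_num)
  have hGs1' : ContMDiff 𝓘(ℝ, E) 𝓘(ℝ, E) 1 G' := hGs'.of_le (by norm_num)
  have hl : ∀ x, G' (G x) = x := fun x => by
    rw [← hgG, ← hgG', S.g.symm_apply_apply]
  have hr : ∀ x, G (G' x) = x := fun x => by
    rw [← hgG, ← hgG', S.g.apply_symm_apply]
  have hli : ∀ (n : ℕ) (x : M), G'^[n] (G^[n] x) = x := fun n x =>
    (Function.LeftInverse.iterate (f := G) (g := G') hl n) x
  have hri : ∀ (n : ℕ) (x : M), G^[n] (G'^[n] x) = x := fun n x =>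
    (Function.LeftInverse.iterate (f := G') (g := G) hr n) x
  obtain ⟨L, hL⟩ := jac_lip e hiso he2 hinj G G' hGs hGs' hl
  obtain ⟨L', hL'⟩ := jac_lip e hiso he2 hinj G' G hGs' hGs hr
  obtain ⟨B, hB⟩ : ∃ B, ∀ x, |jac E e G x| ≤ B := by
    obtain ⟨B, hB⟩ := (isCompact_univ (X := M)).exists_bound_of_continuousOn
      (f := jac E e G) hL.continuous.continuousOn
    exact ⟨B, fun x => hB x trivial⟩
  obtain ⟨B', hB'⟩ : ∃ B, ∀ x, |jac E e G' x| ≤ B := by
    obtain ⟨B, hB⟩ := (isCompact_univ (X := M)).exists_bound_of_continuousOn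
      (f := jac E e G') hL'.continuous.continuousOn
    exact ⟨B, fun x => hB x trivial⟩
  obtain ⟨μ, hμf, hμo, hμ⟩ := exists_measure (E := E) e he2 hinj
  have hbirk : ∀ n x, birk S.g (jac E e G) n x = jac E e (G^[n]) x := by
    intro n x
    rw [birk, hgG1]
    exact jac_iter e he1 hinj G G' hGs1 hGs1' hl n x
  have hbirk' : ∀ n x, birk S.g.symm (jac E e G') n x = jac E e (G'^[n]) x := by
    intro n x
    rw [birk, hgG1']
    exact jac_iter e he1 hinj G' G hGs1' hGs1 hr n x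
  have hnt' : ¬ ∀ U V : Set M, IsOpen U → U.Nonempty → IsOpen V → V.Nonempty →
      ∃ n : ℕ, (S.g^[n] '' U ∩ V).Nonempty := by
    intro htr
    apply hnt
    intro U V hU hUn hV hVn
    obtain ⟨k, hk⟩ := htr U V hU hUn hV hVn
    refine ⟨N * k, ?_⟩
    rw [Function.iterate_mul, ← hG, ← hgG1]
    exact hk
  obtain ⟨T, P, Q, hT, hPf, hQf, hP, hQ, hdense⟩ := abs_main S hnt' L.coe_nonneg
    L'.coe_nonneg (φ := jac E e G) (ψ := jac E e G')
    (fun x y => by have := hL.dist_le_mul x y; rwa [Real.dist_eq] at this) hB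
    (fun x y => by have := hL'.dist_le_mul x y; rwa [Real.dist_eq] at this) hB' μ (by
      intro C
      obtain ⟨κ, hκ, h1⟩ := hμ C
      refine ⟨κ, hκ, fun W hW n hWn => ?_⟩
      rw [hgG1]
      refine h1 (G^[n]) (G'^[n]) (iter_smooth G hGs1 n) (iter_smooth G' hGs1' n) (hli n) (hri n) W
        hW (fun y hy => ?_)
      rw [← hbirk]
      exact hWn y hy) (by
      intro C
      obtain ⟨κ, hκ, h1⟩ := hμ C
      refine ⟨κ, hκ, fun W hW n hWn => ?_⟩
      rw [hgG1']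
      refine h1 (G'^[n]) (G^[n]) (iter_smooth G' hGs1' n) (iter_smooth G hGs1 n) (hri n) (hli n) W
        hW (fun y hy => ?_)
      rw [← hbirk']
      exact hWn y hy)
  have hit : ∀ n, G^[n] = f^[N * n] := fun n => (Function.iterate_mul f N n).symm
  have hit' : ∀ n, G'^[n] = f.symm^[N * n] := fun n => (Function.iterate_mul f.symm N n).symm
  have hdet : ∀ x, (dg E (G^[T]) x).det ≠ 0 ∧ (dg E (G'^[T]) x).det ≠ 0 := by
    intro x
    constructor
    · have h1 := det_dg_ne (G^[T]) (G'^[T]) (iter_smooth G hGs1 T) (iter_smooth G' hGs1' T)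
        (hli T) x
      intro h2
      rw [h2, mul_zero] at h1
      exact zero_ne_one h1
    · have h1 := det_dg_ne (G'^[T]) (G^[T]) (iter_smooth G' hGs1' T) (iter_smooth G hGs1 T)
        (hri T) x
      intro h2
      rw [h2, mul_zero] at h1
      exact zero_ne_one h1
  refine ⟨N * T, P, Q, Nat.mul_pos hN hT, hPf, hQf, fun p hpP => ?_, fun q hqQ => ?_, ?_⟩
  · obtain ⟨hp, hbp⟩ := hP p hpP
    have hpG : G^[T] p = p := by rw [← hgG1]; exact hp
    refine ⟨by rw [← hit]; exact hpG, ?_⟩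
    show |(dg E (f^[N * T]) p).det| < 1
    rw [← hit]
    rw [hbirk, jac_eq e he1 hinj _ (iter_smooth G hGs1 T) p (hdet p).1, hpG] at hbp
    have h1 : Real.log |(dg E (G^[T]) p).det| < 0 := by linarith
    have h2 : 0 < |(dg E (G^[T]) p).det| := abs_pos.mpr (hdet p).1
    by_contra h3
    push Not at h3
    exact absurd (Real.log_nonneg h3) (not_le.mpr h1)
  · obtain ⟨hq, hbq⟩ := hQ q hqQ
    have hqG' : G'^[T] q = q := by rw [← hgG1']; exact hq
    have hqG : G^[T] q = q := by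
      have := hri T q
      rwa [hqG'] at this
    refine ⟨by rw [← hit]; exact hqG, ?_⟩
    show 1 < |(dg E (f^[N * T]) q).det|
    rw [← hit]
    rw [hbirk', jac_eq e he1 hinj _ (iter_smooth G' hGs1' T) q (hdet q).2, hqG'] at hbq
    have h1 : Real.log |(dg E (G'^[T]) q).det| < 0 := by linarith
    have h2 : 0 < |(dg E (G'^[T]) q).det| := abs_pos.mpr (hdet q).2
    have h3 : |(dg E (G'^[T]) q).det| < 1 := by
      by_contra h3
      push Not at h3
      exact absurd (Real.log_nonneg h3) (not_le.mpr h1)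
    have h4 := det_dg_ne (G^[T]) (G'^[T]) (iter_smooth G hGs1 T) (iter_smooth G' hGs1' T)
        (hli T) q
    rw [hqG] at h4
    have h5 : |(dg E (G'^[T]) q).det| * |(dg E (G^[T]) q).det| = 1 := by
      rw [← abs_mul, h4, abs_one]
    have h6 : 0 < |(dg E (G^[T]) q).det| := abs_pos.mpr (hdet q).1
    nlinarith
  · rw [dense_iff_inter_open]
    intro V hV hVn
    obtain ⟨x, hxV, p, hpP, q, hqQ, hpx, hqx⟩ := hdense V hV hVn
    have hp := (hP p hpP).1
    have hq := (hQ q hqQ).1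
    refine ⟨x, hxV, ⟨p, hpP, ?_⟩, ⟨q, hqQ, ?_⟩⟩
    · have h1 : Tendsto (fun k : ℕ => dist (S.g^[T * k] p) (S.g^[T * k] x)) atTop (𝓝 0) :=
        hpx.comp (tendsto_id.const_mul_atTop' (by omega : 0 < T))
      have h2 : ∀ k, S.g^[T * k] p = p := fun k => by
        rw [Function.iterate_mul]; exact Function.iterate_fixed hp k
      have h3 : ∀ k, S.g^[T * k] x = f^[N * T * k] x := fun k => by
        rw [hgG1, hit, mul_assoc]
      simp only [h2, h3] at h1
      rw [tendsto_iff_dist_tendsto_zero]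
      simpa only [dist_comm] using h1
    · have h1 : Tendsto (fun k : ℕ => dist (S.g.symm^[T * k] q) (S.g.symm^[T * k] x)) atTop
          (𝓝 0) := hqx.comp (tendsto_id.const_mul_atTop' (by omega : 0 < T))
      have h2 : ∀ k, S.g.symm^[T * k] q = q := fun k => by
        rw [Function.iterate_mul]; exact Function.iterate_fixed hq k
      have h3 : ∀ k, S.g.symm^[T * k] x = f.symm^[N * T * k] x := fun k => by
        rw [hgG1', hit', mul_assoc]
      simp only [h2, h3] at h1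
      rw [tendsto_iff_dist_tendsto_zero]
      simpa only [dist_comm] using h1

end main

end Pool.Agent.Y321.PJ
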