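import Pool.Agent.Y321.PJ.Vol
import Pool.Agent.H789R2.AN.Hyp

set_option autoImplicit false

open Filter Topology Set Metric MeasureTheory

open scoped ENNReal

namespace Pool.Agent.Y321.PJ

open Pool.Agent.H789R2.AN Pool.Agent.H721R2

section birk

variable {X : Type*} [MetricSpace X]

theorem birk_map {g : X ≃ₜ X} {φ : X → ℝ} {q : ℕ} {p : X} (hp : g^[q] p = p) :
    birk g φ q (g p) = birk g φ q p := by
  have h1 := Finset.sum_range_succ (fun i => φ (g^[i] p)) q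
  have h2 := Finset.sum_range_succ' (fun i => φ (g^[i] p)) q
  have h3 : birk g φ q (g p) = ∑ i ∈ Finset.range q, φ (g^[i + 1] p) := by
    unfold birk
    apply Finset.sum_congr rfl
    intro i _
    rw [Function.iterate_succ_apply]
  have h4 : birk g φ q p = ∑ i ∈ Finset.range q, φ (g^[i] p) := rfl
  simp only [hp, Function.iterate_zero, id_eq] at h1 h2
  rw [h3, h4]
  linarith

theorem per_map {g : X ≃ₜ X} {q : ℕ} {p : X} (hp : g^[q] p = p) : g^[q] (g p) = g p := by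
  rw [← Function.iterate_succ_apply, Function.iterate_succ_apply', hp]

theorem per_iter {g : X ≃ₜ X} {q : ℕ} {p : X} (hp : g^[q] p = p) (k : ℕ) :
    g^[q] (g^[k] p) = g^[k] p := by
  induction k with
  | zero => exact hp
  | succ k ih => rw [Function.iterate_succ_apply']; exact per_map ih

theorem birk_iter {g : X ≃ₜ X} {φ : X → ℝ} {q : ℕ} {p : X} (hp : g^[q] p = p) (k : ℕ) :
    birk g φ q (g^[k] p) = birk g φ q p := by
  induction k with
  | zero => rfl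
  | succ k ih => rw [Function.iterate_succ_apply', birk_map (per_iter hp k), ih]

theorem per_back {g : X ≃ₜ X} {q : ℕ} {p : X} (hp : g^[q] p = p) (k : ℕ) :
    g^[q] (g.symm^[k] p) = g.symm^[k] p := by
  have h1 := iter_comm (g := g) (φ := g.symm) (fun x => by
    rw [g.symm_apply_apply, g.apply_symm_apply])
  induction k with
  | zero => exact hp
  | succ k ih =>
    rw [Function.iterate_succ_apply', ← h1, ih]

theorem birk_back {g : X ≃ₜ X} {φ : X → ℝ} {q : ℕ} {p : X} (hp : g^[q] p = p) (k : ℕ) :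
    birk g φ q (g.symm^[k] p) = birk g φ q p := by
  have h1 := birk_iter (φ := φ) (per_back hp k) k
  rw [iterR] at h1
  exact h1.symm

theorem birk_mul {g : X ≃ₜ X} {φ : X → ℝ} {q : ℕ} {p : X} (hp : g^[q] p = p) (m : ℕ) :
    birk g φ (q * m) p = m * birk g φ q p := by
  induction m with
  | zero => simp [birk]
  | succ m ih =>
    have h1 : birk g φ (q * (m + 1)) p = birk g φ (q * m) p +
        ∑ i ∈ Finset.range q, φ (g^[q * m + i] p) := by
      rw [birk, mul_add, mul_one, Finset.sum_range_add]; rfl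
    have h2 : ∑ i ∈ Finset.range q, φ (g^[q * m + i] p) = birk g φ q p := by
      apply Finset.sum_congr rfl
      intro i _
      have h3 : g^[q * m] p = p := by
        rw [Function.iterate_mul]; exact Function.iterate_fixed hp m
      rw [add_comm, Function.iterate_add_apply, h3]
    rw [h1, h2, ih]
    push_cast
    ring

end birk

variable {X E : Type*} [MetricSpace X] [NormedAddCommGroup E] [NormedSpace ℝ E]

/-- There are finitely many minimal attractors. -/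
theorem finite_minAtt {X : Type*} [MetricSpace X] [CompactSpace X] [Nonempty X] {g : X ≃ₜ X}
    {c : ℝ} (h : LP g c) : {A : Set X | MinAtt g A}.Finite := by
  obtain ⟨δ, hδ, hsep⟩ := h.sep
  obtain ⟨t, -, htfin, hcov⟩ := (isCompact_univ (X := X)).finite_cover_balls (half_pos hδ)
  have hch : ∀ A : Set X, ∃ x : X, MinAtt g A → x ∈ t ∧ ∃ a ∈ A, dist a x < δ / 2 := by
    intro A
    by_cases hA : MinAtt g A
    · obtain ⟨a, ha⟩ := hA.1.nonempty
      obtain ⟨x, hx, hax⟩ := mem_iUnion₂.mp (hcov (mem_univ a))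
      exact ⟨x, fun _ => ⟨hx, a, ha, hax⟩⟩
    · exact ⟨Classical.arbitrary X, fun h => absurd h hA⟩
  choose f hf using hch
  refine Set.Finite.of_injOn (f := f) (t := t) (fun A hA => (hf A hA).1) ?_ htfin
  intro A hA B hB hAB
  obtain ⟨-, a, ha, hax⟩ := hf A hA
  obtain ⟨-, b, hb, hbx⟩ := hf B hB
  apply hsep A B hA hB ⟨a, ha, b, hb, ?_⟩
  rw [← hAB] at hbx
  have := dist_triangle a (f A) b
  rw [dist_comm (f A) b] at this
  linarith

theorem finite_back {X : Type*} [MetricSpace X] {g : X ≃ₜ X} {q : ℕ} {p : X} (hq : 1 ≤ q)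
    (hp : g^[q] p = p) : (range fun k : ℕ => g.symm^[k] p).Finite := by
  have hp' : g.symm^[q] p = p := by
    have := iterL g q p
    rwa [hp] at this
  apply ((Finset.range q).finite_toSet.image fun k : ℕ => g.symm^[k] p).subset
  rintro _ ⟨k, rfl⟩
  refine ⟨k % q, by simpa using Nat.mod_lt k hq, ?_⟩
  exact (Function.IsPeriodicPt.iterate_mod_apply (f := g.symm) (n := q) hp' k)

theorem fixed_of_dvd {X : Type*} {g : X → X} {q T : ℕ} {p : X} (hp : g^[q] p = p) (h : q ∣ T) :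
    g^[T] p = p := by
  obtain ⟨m, rfl⟩ := h
  rw [Function.iterate_mul]
  exact Function.iterate_fixed hp m

theorem birk_neg_of_dvd {X : Type*} [MetricSpace X] {g : X ≃ₜ X} {φ : X → ℝ} {q T : ℕ} {p : X}
    (hT : 1 ≤ T) (hp : g^[q] p = p) (h : q ∣ T) (hn : birk g φ q p < 0) : birk g φ T p < 0 := by
  obtain ⟨m, rfl⟩ := h
  rw [birk_mul hp]
  have : 0 < m := Nat.pos_of_mul_pos_left hT
  exact mul_neg_of_pos_of_neg (by exact_mod_cast this) hn

/-- Abstract form of the main theorem. -/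
theorem abs_main [CompactSpace X] [ConnectedSpace X] [MeasurableSpace X] [BorelSpace X]
    (S : HypSys X E)
    (hnt : ¬ ∀ U V : Set X, IsOpen U → U.Nonempty → IsOpen V → V.Nonempty →
      ∃ n : ℕ, (S.g^[n] '' U ∩ V).Nonempty)
    {φ ψ : X → ℝ} {L B L' B' : ℝ} (hL : 0 ≤ L) (hL' : 0 ≤ L')
    (hφ : ∀ x y, |φ x - φ y| ≤ L * dist x y) (hB : ∀ x, |φ x| ≤ B)
    (hψ : ∀ x y, |ψ x - ψ y| ≤ L' * dist x y) (hB' : ∀ x, |ψ x| ≤ B')
    (μ : Measure X) [IsFiniteMeasure μ] [μ.IsOpenPosMeasure]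
    (hμ : ∀ C : ℝ, ∃ κ : ℝ≥0∞, κ ≠ 0 ∧ ∀ W, IsOpen W → ∀ n : ℕ,
      (∀ y ∈ W, -C ≤ birk S.g φ n y) → κ * μ W ≤ μ (S.g^[n] '' W))
    (hμ' : ∀ C : ℝ, ∃ κ : ℝ≥0∞, κ ≠ 0 ∧ ∀ W, IsOpen W → ∀ n : ℕ,
      (∀ y ∈ W, -C ≤ birk S.g.symm ψ n y) → κ * μ W ≤ μ (S.g.symm^[n] '' W)) :
    ∃ (T : ℕ) (P Q : Set X), 1 ≤ T ∧ P.Finite ∧ Q.Finite ∧
      (∀ p ∈ P, S.g^[T] p = p ∧ birk S.g φ T p < 0) ∧
      (∀ q ∈ Q, S.g.symm^[T] q = q ∧ birk S.g.symm ψ T q < 0) ∧
      ∀ V, IsOpen V → V.Nonempty → ∃ x ∈ V, ∃ p ∈ P, ∃ q ∈ Q, WS S.g p x ∧ WS S.g.symm q x := by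
  obtain ⟨c, h⟩ := exists_LP S
  have hAne : ∀ A, MinAtt S.g A → A ≠ univ := by
    rintro A hA rfl
    exact hnt (trans_of_min_univ h hA)
  have hRne : ∀ R, MinAtt S.g.symm R → R ≠ univ := by
    rintro R hR rfl
    apply hnt
    intro U V hU hUn hV hVn
    obtain ⟨n, y, ⟨v, hv, rfl⟩, hy⟩ := trans_of_min_univ h.symm hR V U hV hVn hU hUn
    exact ⟨n, v, ⟨_, hy, iterR _ n v⟩, hv⟩
  have hchA : ∀ A : Set X, ∃ (p : X) (n : ℕ), 1 ≤ n ∧ (MinAtt S.g A → p ∈ A ∧ S.g^[n] p = p ∧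
      birk S.g φ n p < 0) := by
    intro A
    by_cases hA : MinAtt S.g A
    · obtain ⟨p, hp, n, hn, h1, h2⟩ := exists_neg S h hA (hAne A hA) hL hφ hB μ hμ
      exact ⟨p, n, hn, fun _ => ⟨hp, h1, h2⟩⟩
    · exact ⟨Classical.arbitrary X, 1, le_rfl, fun h => absurd h hA⟩
  have hchR : ∀ R : Set X, ∃ (p : X) (n : ℕ), 1 ≤ n ∧ (MinAtt S.g.symm R → p ∈ R ∧
      S.g.symm^[n] p = p ∧ birk S.g.symm ψ n p < 0) := by
    intro R
    by_cases hR : MinAtt S.g.symm R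
    · obtain ⟨p, hp, n, hn, h1, h2⟩ := exists_neg S.symm (c := c) h.symm hR (hRne R hR) hL' hψ hB'
        μ hμ'
      exact ⟨p, n, hn, fun _ => ⟨hp, h1, h2⟩⟩
    · exact ⟨Classical.arbitrary X, 1, le_rfl, fun h => absurd h hR⟩
  choose p n hn hp using hchA
  choose r m hm hr using hchR
  have hFA := finite_minAtt h
  have hFR := finite_minAtt h.symm
  set T := (∏ A ∈ hFA.toFinset, n A) * ∏ R ∈ hFR.toFinset, m R with hT
  have hT1 : 1 ≤ T := Nat.mul_pos (Finset.prod_pos fun A _ => hn A)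
    (Finset.prod_pos fun R _ => hm R)
  have hnT : ∀ A, MinAtt S.g A → n A ∣ T := fun A hA =>
    Dvd.dvd.mul_right (Finset.dvd_prod_of_mem n (hFA.mem_toFinset.mpr hA)) _
  have hmT : ∀ R, MinAtt S.g.symm R → m R ∣ T := fun R hR =>
    Dvd.dvd.mul_left (Finset.dvd_prod_of_mem m (hFR.mem_toFinset.mpr hR)) _
  refine ⟨T, ⋃ A ∈ {A : Set X | MinAtt S.g A}, range fun k : ℕ => S.g.symm^[k] (p A),
    ⋃ R ∈ {R : Set X | MinAtt S.g.symm R}, range fun k : ℕ => S.g^[k] (r R), hT1, ?_, ?_, ?_, ?_,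
    ?_⟩
  · exact hFA.biUnion fun A hA => finite_back (hn A) (hp A hA).2.1
  · exact hFR.biUnion fun R hR => finite_back (g := S.g.symm) (hm R) (hr R hR).2.1
  · intro y hy
    obtain ⟨A, hA, k, rfl⟩ := mem_iUnion₂.mp hy
    have h1 := (hp A hA).2.1
    have h2 := (hp A hA).2.2
    refine ⟨fixed_of_dvd (per_back h1 k) (hnT A hA),
      birk_neg_of_dvd hT1 (per_back h1 k) (hnT A hA) ?_⟩
    show birk S.g φ (n A) (S.g.symm^[k] (p A)) < 0
    rw [birk_back h1]; exact h2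
  · intro y hy
    obtain ⟨R, hR, k, rfl⟩ := mem_iUnion₂.mp hy
    have h1 := (hr R hR).2.1
    have h2 := (hr R hR).2.2
    have h3 : S.g.symm^[m R] (S.g^[k] (r R)) = S.g^[k] (r R) := per_back (g := S.g.symm) h1 k
    refine ⟨fixed_of_dvd h3 (hmT R hR), birk_neg_of_dvd hT1 h3 (hmT R hR) ?_⟩
    have := birk_back (g := S.g.symm) (φ := ψ) h1 k
    have e : S.g.symm.symm^[k] (r R) = S.g^[k] (r R) := rfl
    rw [e] at this
    rw [this]; exact h2
  · intro V hV hVn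
    obtain ⟨A, R, hA, hR, hne⟩ := exists_connection h hV hVn
    obtain ⟨j, k, x, hxV, hx1, hx2⟩ := exists_heteroclinic h hA hR hV hne (hp A hA).1 (hr R hR).1
    exact ⟨x, hxV, _, mem_biUnion (by exact hA) ⟨k, rfl⟩, _, mem_biUnion (by exact hR) ⟨j, rfl⟩,
      hx1, hx2⟩

end Pool.Agent.Y321.PJ
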