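import Mathlib

set_option autoImplicit false

open scoped ContDiff Topology
open Set Filter Matrix

namespace Pool.Agent.Y321.PJ

variable {E : Type*} [NormedAddCommGroup E] [NormedSpace ℝ E] [FiniteDimensional ℝ E]
  {F : Type*} [NormedAddCommGroup F] [InnerProductSpace ℝ F]

/-- Gram determinant of a linear map. -/
noncomputable def gr (T : E →L[ℝ] F) : ℝ :=
  (Matrix.gram ℝ (fun i => T (Module.finBasis ℝ E i))).det

theorem gr_pos {T : E →L[ℝ] F} (hT : Function.Injective T) : 0 < gr T := by
  apply Matrix.PosDef.det_pos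
  apply Matrix.posDef_gram_of_linearIndependent
  exact (Module.finBasis ℝ E).linearIndependent.map' (T : E →ₗ[ℝ] F)
    (LinearMap.ker_eq_bot.mpr hT)

theorem gr_comp (T : E →L[ℝ] F) (L : E →L[ℝ] E) : gr (T.comp L) = L.det ^ 2 * gr T := by
  set b := Module.finBasis ℝ E with hb
  set A := LinearMap.toMatrix b b (L : E →ₗ[ℝ] E) with hA
  have hL : ∀ i, L (b i) = ∑ k, A k i • b k := by
    intro i
    have := b.sum_repr (L (b i))
    rw [← this]
    apply Finset.sum_congr rfl
    intro k _
    rw [hA, LinearMap.toMatrix_apply]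
    simp
  have hG : Matrix.gram ℝ (fun i => (T.comp L) (b i)) =
      Aᵀ * Matrix.gram ℝ (fun i => T (b i)) * A := by
    ext i j
    rw [Matrix.gram_apply, Matrix.mul_apply]
    simp only [ContinuousLinearMap.comp_apply, hL, map_sum, map_smul, sum_inner, inner_sum,
      Matrix.mul_apply, Matrix.transpose_apply, Matrix.gram_apply, inner_smul_left,
      inner_smul_right]
    apply Finset.sum_congr rfl
    intro l _
    rw [mul_comm]
    congr 1
  rw [gr, gr, hG, Matrix.det_mul, Matrix.det_mul, Matrix.det_transpose]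
  have : A.det = L.det := by
    rw [hA, LinearMap.det_toMatrix]
  rw [this]
  ring

theorem contDiff_gr (n : WithTop ℕ∞) : ContDiff ℝ n (gr : (E →L[ℝ] F) → ℝ) := by
  unfold gr
  simp only [Matrix.det_apply]
  apply ContDiff.sum
  intro σ _
  apply ContDiff.const_smul
  apply contDiff_prod
  intro i _
  simp only [Matrix.gram_apply]
  apply ContDiff.inner
  · exact (ContinuousLinearMap.apply ℝ F (Module.finBasis ℝ E (σ i))).contDiff
  · exact (ContinuousLinearMap.apply ℝ F (Module.finBasis ℝ E i)).contDiff

end Pool.Agent.Y321.PJ
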