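import Pool.Agent.Y321.PJ.Gram
import Pool.Agent.H721R2.Embed

set_option autoImplicit false
set_option linter.unusedSectionVars false

open scoped Manifold ContDiff Topology
open Set Filter

namespace Pool.Agent.Y321.PJ

open Pool.Agent.H721R2

section defs

variable {E : Type*} [NormedAddCommGroup E] [NormedSpace ℝ E] [FiniteDimensional ℝ E]
  {M : Type*} [TopologicalSpace M] [ChartedSpace E M] [IsManifold 𝓘(ℝ, E) ∞ M]
  {F : Type*} [NormedAddCommGroup F] [InnerProductSpace ℝ F]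

theorem hatMap_contDiffAt2 (h : M → F) (hh : ContMDiff 𝓘(ℝ, E) 𝓘(ℝ, F) 2 h) (x₀ : M) (p : E)
    (hp : p ∈ (extChartAt 𝓘(ℝ, E) x₀).target) : ContDiffAt ℝ 2 (hatMap h x₀) p := by
  rw [← contMDiffAt_iff_contDiffAt]
  have h1 : ContMDiffOn 𝓘(ℝ, E) 𝓘(ℝ, E) 2 (extChartAt 𝓘(ℝ, E) x₀).symm
      (extChartAt 𝓘(ℝ, E) x₀).target := contMDiffOn_extChartAt_symm x₀
  have h2 : ContMDiffAt 𝓘(ℝ, E) 𝓘(ℝ, E) 2 (extChartAt 𝓘(ℝ, E) x₀).symm p :=
    h1.contMDiffAt ((isOpen_extChartAt_target x₀).mem_nhds hp)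
  exact ContMDiffAt.comp p hh.contMDiffAt h2

/-- logarithm of the volume density of `h` in the chart at `x₀` -/
noncomputable def lh (h : M → F) (x₀ : M) (y : E) : ℝ :=
  1 / 2 * Real.log (gr (fderiv ℝ (hatMap h x₀) y))

/-- logarithm of the volume density of `h` in the preferred chart -/
noncomputable def uu (E : Type*) [NormedAddCommGroup E] [NormedSpace ℝ E] [FiniteDimensional ℝ E]
    {M : Type*} [TopologicalSpace M] [ChartedSpace E M] {F : Type*} [NormedAddCommGroup F]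
    [InnerProductSpace ℝ F] (h : M → F) (x : M) : ℝ :=
  1 / 2 * Real.log (gr (dm E h x))

/-- logarithm of the Jacobian of `G` for the metric induced by `e` -/
noncomputable def jac (E : Type*) [NormedAddCommGroup E] [NormedSpace ℝ E] [FiniteDimensional ℝ E]
    {M : Type*} [TopologicalSpace M] [ChartedSpace E M] {F : Type*} [NormedAddCommGroup F]
    [InnerProductSpace ℝ F] (e : M → F) (G : M → M) (x : M) : ℝ :=
  uu E (e ∘ G) x - uu E e x

theorem half_log {d g : ℝ} (h : 0 < d ^ 2 * g) :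
    1 / 2 * Real.log (d ^ 2 * g) = Real.log |d| + 1 / 2 * Real.log g := by
  have hd : d ≠ 0 := by
    rintro rfl
    simp at h
  have hg : 0 < g := by
    have : 0 < d ^ 2 := by positivity
    exact (pos_iff_pos_of_mul_pos h).mp this
  rw [Real.log_mul (by positivity) hg.ne', ← sq_abs, Real.log_pow]
  push_cast
  ring

theorem dm_eq (h : M → F) (hh : ContMDiff 𝓘(ℝ, E) 𝓘(ℝ, F) 1 h) (x₀ x : M)
    (hx : x ∈ (extChartAt 𝓘(ℝ, E) x₀).source) :
    dm E h x = (fderiv ℝ (hatMap h x₀) (extChartAt 𝓘(ℝ, E) x₀ x)).comp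
      (dm E (extChartAt 𝓘(ℝ, E) x₀) x) := by
  ext v
  exact hatMap_mfderiv h hh x₀ x hx v

theorem gr_hat_pos (h : M → F) (hh : ContMDiff 𝓘(ℝ, E) 𝓘(ℝ, F) 1 h) (x₀ x : M)
    (hx : x ∈ (extChartAt 𝓘(ℝ, E) x₀).source) (hinj : Function.Injective (dm E h x)) :
    0 < gr (fderiv ℝ (hatMap h x₀) (extChartAt 𝓘(ℝ, E) x₀ x)) := by
  have h1 := gr_pos hinj
  rw [dm_eq h hh x₀ x hx, gr_comp] at h1
  have h2 : 0 ≤ (dm E (extChartAt 𝓘(ℝ, E) x₀) x).det ^ 2 := sq_nonneg _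
  rcases h2.eq_or_lt with h3 | h3
  · rw [← h3, zero_mul] at h1
    exact absurd h1 (lt_irrefl _)
  · exact (pos_iff_pos_of_mul_pos h1).mp h3

theorem uu_eq (h : M → F) (hh : ContMDiff 𝓘(ℝ, E) 𝓘(ℝ, F) 1 h) (x₀ x : M)
    (hx : x ∈ (extChartAt 𝓘(ℝ, E) x₀).source) (hinj : Function.Injective (dm E h x)) :
    uu E h x = Real.log |(dm E (extChartAt 𝓘(ℝ, E) x₀) x).det| +
      lh h x₀ (extChartAt 𝓘(ℝ, E) x₀ x) := by
  have h1 := gr_pos hinj
  rw [uu, lh]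
  rw [dm_eq h hh x₀ x hx, gr_comp] at h1 ⊢
  exact half_log h1

theorem dm_comp' (e : M → F) (he : ContMDiff 𝓘(ℝ, E) 𝓘(ℝ, F) 1 e) (G : M → M)
    (hG : ContMDiff 𝓘(ℝ, E) 𝓘(ℝ, E) 1 G) (x : M) :
    dm E (e ∘ G) x = (dm E e (G x)).comp (dg E G x) := by
  ext v
  exact dm_comp e he G hG x v

theorem det_dg_ne (G G' : M → M) (hG : ContMDiff 𝓘(ℝ, E) 𝓘(ℝ, E) 1 G)
    (hG' : ContMDiff 𝓘(ℝ, E) 𝓘(ℝ, E) 1 G') (h : ∀ x, G' (G x) = x) (x : M) :
    (dg E G' (G x)).det * (dg E G x).det = 1 := by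
  have h1 : ((dg E G' (G x)) : E →ₗ[ℝ] E) ∘ₗ ((dg E G x) : E →ₗ[ℝ] E) = LinearMap.id := by
    ext v
    exact dg_inv G G' hG hG' h x v
  have h2 := congrArg LinearMap.det h1
  rw [LinearMap.det_comp, LinearMap.det_id] at h2
  exact h2

theorem uu_comp (e : M → F) (he : ContMDiff 𝓘(ℝ, E) 𝓘(ℝ, F) 1 e)
    (hinj : ∀ x, Function.Injective (dm E e x)) (G : M → M)
    (hG : ContMDiff 𝓘(ℝ, E) 𝓘(ℝ, E) 1 G) (x : M) (hd : (dg E G x).det ≠ 0) :
    uu E (e ∘ G) x = Real.log |(dg E G x).det| + uu E e (G x) := by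
  rw [uu, uu, dm_comp' e he G hG x, gr_comp]
  apply half_log
  have := gr_pos (hinj (G x))
  positivity

theorem jac_eq (e : M → F) (he : ContMDiff 𝓘(ℝ, E) 𝓘(ℝ, F) 1 e)
    (hinj : ∀ x, Function.Injective (dm E e x)) (G : M → M)
    (hG : ContMDiff 𝓘(ℝ, E) 𝓘(ℝ, E) 1 G) (x : M) (hd : (dg E G x).det ≠ 0) :
    jac E e G x = Real.log |(dg E G x).det| + uu E e (G x) - uu E e x := by
  rw [jac, uu_comp e he hinj G hG x hd]

/-- the comp of an immersion and a diffeomorphism is an immersion -/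
theorem inj_comp (e : M → F) (he : ContMDiff 𝓘(ℝ, E) 𝓘(ℝ, F) 1 e)
    (hinj : ∀ x, Function.Injective (dm E e x)) (G G' : M → M)
    (hG : ContMDiff 𝓘(ℝ, E) 𝓘(ℝ, E) 1 G)
    (hG' : ContMDiff 𝓘(ℝ, E) 𝓘(ℝ, E) 1 G') (h : ∀ x, G' (G x) = x) (x : M) :
    Function.Injective (dm E (e ∘ G) x) := by
  rw [dm_comp' e he G hG x]
  have h1 : Function.Injective (dg E G x) :=
    Function.LeftInverse.injective (g := dg E G' (G x)) (fun v => dg_inv G G' hG hG' h x v)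
  exact (hinj (G x)).comp h1

theorem jac_local (e : M → F) (he : ContMDiff 𝓘(ℝ, E) 𝓘(ℝ, F) 1 e)
    (hinj : ∀ x, Function.Injective (dm E e x)) (G G' : M → M)
    (hG : ContMDiff 𝓘(ℝ, E) 𝓘(ℝ, E) 1 G)
    (hG' : ContMDiff 𝓘(ℝ, E) 𝓘(ℝ, E) 1 G') (h : ∀ x, G' (G x) = x) (x₀ x : M)
    (hx : x ∈ (extChartAt 𝓘(ℝ, E) x₀).source) :
    jac E e G x = lh (e ∘ G) x₀ (extChartAt 𝓘(ℝ, E) x₀ x) -
      lh e x₀ (extChartAt 𝓘(ℝ, E) x₀ x) := by
  rw [jac, uu_eq e he x₀ x hx (hinj x), uu_eq (e ∘ G) (he.comp hG) x₀ x hx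
    (inj_comp e he hinj G G' hG hG' h x)]
  ring

/-- chain rule for iterates -/
theorem jac_iter (e : M → F) (he : ContMDiff 𝓘(ℝ, E) 𝓘(ℝ, F) 1 e)
    (hinj : ∀ x, Function.Injective (dm E e x)) (G G' : M → M)
    (hG : ContMDiff 𝓘(ℝ, E) 𝓘(ℝ, E) 1 G)
    (hG' : ContMDiff 𝓘(ℝ, E) 𝓘(ℝ, E) 1 G') (h : ∀ x, G' (G x) = x) (n : ℕ) (x : M) :
    ∑ i ∈ Finset.range n, jac E e G (G^[i] x) = jac E e (G^[n]) x := by
  have hit : ∀ n x, (dg E (G^[n]) x).det ≠ 0 := by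
    intro n x
    have h1 := det_dg_ne (G^[n]) (G'^[n]) (iter_smooth G hG n) (iter_smooth G' hG' n)
      (fun x => (Function.LeftInverse.iterate (f := G) (g := G') h n) x) x
    intro h2
    rw [h2, mul_zero] at h1
    exact zero_ne_one h1
  have h1d : ∀ x, (dg E G x).det ≠ 0 := fun x => hit 1 x
  induction n with
  | zero =>
    simp [jac]
  | succ n ih =>
    rw [Finset.sum_range_succ, ih, jac_eq e he hinj _ (iter_smooth G hG n) x (hit n x),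
      jac_eq e he hinj _ hG _ (h1d _),
      jac_eq e he hinj _ (iter_smooth G hG (n + 1)) x (hit (n + 1) x)]
    have e1 : (dg E (G^[n + 1]) x).det = (dg E G (G^[n] x)).det * (dg E (G^[n]) x).det := by
      have h2 : ((dg E (G^[n + 1]) x) : E →ₗ[ℝ] E) =
          ((dg E G (G^[n] x)) : E →ₗ[ℝ] E) ∘ₗ ((dg E (G^[n]) x) : E →ₗ[ℝ] E) := by
        ext v
        rw [Function.iterate_succ']
        exact dg_comp (G^[n]) G (iter_smooth G hG n) hG x v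
      have h3 := congrArg LinearMap.det h2
      rw [LinearMap.det_comp] at h3
      exact h3
    rw [e1, abs_mul, Real.log_mul (abs_ne_zero.mpr (h1d _)) (abs_ne_zero.mpr (hit n x)),
      Function.iterate_succ_apply']
    ring

end defs

section lip

variable {E : Type*} [NormedAddCommGroup E] [NormedSpace ℝ E] [FiniteDimensional ℝ E]
  {M : Type*} [MetricSpace M] [ChartedSpace E M] [IsManifold 𝓘(ℝ, E) ∞ M]
  {F : Type*} [NormedAddCommGroup F] [InnerProductSpace ℝ F]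

theorem lh_contDiffAt (h : M → F) (hh : ContMDiff 𝓘(ℝ, E) 𝓘(ℝ, F) 2 h) (x₀ : M)
    (hinj : Function.Injective (dm E h x₀)) :
    ContDiffAt ℝ 1 (lh h x₀) (extChartAt 𝓘(ℝ, E) x₀ x₀) := by
  have h0 : extChartAt 𝓘(ℝ, E) x₀ x₀ ∈ (extChartAt 𝓘(ℝ, E) x₀).target :=
    mem_extChartAt_target x₀
  have h1 : ContDiffAt ℝ 1 (fderiv ℝ (hatMap h x₀)) (extChartAt 𝓘(ℝ, E) x₀ x₀) :=
    (hatMap_contDiffAt2 h hh x₀ _ h0).fderiv_right (m := 1) (by norm_num)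
  have h2 := gr_hat_pos h (hh.of_le (by norm_num)) x₀ x₀ (mem_extChartAt_source x₀) hinj
  have h3 : ContDiffAt ℝ 1 (fun y => gr (fderiv ℝ (hatMap h x₀) y))
      (extChartAt 𝓘(ℝ, E) x₀ x₀) := (contDiff_gr 1).contDiffAt.comp _ h1
  exact contDiffAt_const.mul (h3.log h2.ne')

/-- the chart is locally Lipschitz for the metric of an embedding -/
theorem chart_lip (e : M → F) (hiso : ∀ x y, dist x y = ‖e x - e y‖)
    (he : ContMDiff 𝓘(ℝ, E) 𝓘(ℝ, F) 1 e)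
    (hinj : ∀ x, Function.Injective (dm E e x)) (x₀ : M) :
    ∃ C ≥ 0, ∃ W ∈ 𝓝 x₀, W ⊆ (extChartAt 𝓘(ℝ, E) x₀).source ∧ ∀ x ∈ W, ∀ y ∈ W,
      ‖extChartAt 𝓘(ℝ, E) x₀ x - extChartAt 𝓘(ℝ, E) x₀ y‖ ≤ C * dist x y := by
  set κ := extChartAt 𝓘(ℝ, E) x₀ with hκ
  set L := fderiv ℝ (hatMap e x₀) (κ x₀) with hL
  have hLinj : Function.Injective L := by
    have h1 := dm_eq e he x₀ x₀ (mem_extChartAt_source x₀)
    have h2 := hinj x₀
    rw [h1] at h2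
    intro a b hab
    obtain ⟨A, hA⟩ := isInvertible_mfderiv_extChartAt (I := 𝓘(ℝ, E))
      (mem_extChartAt_source (I := 𝓘(ℝ, E)) x₀)
    have h3 : ∀ w : E, dm E κ x₀ (A.symm w) = w := by
      intro w
      show mfderiv 𝓘(ℝ, E) 𝓘(ℝ, E) κ x₀ (A.symm w) = w
      rw [← hA]; exact A.apply_symm_apply w
    have h4 : A.symm a = A.symm b := by
      apply h2
      show L (dm E κ x₀ (A.symm a)) = L (dm E κ x₀ (A.symm b))
      rw [h3, h3, hab]
    exact A.symm.injective h4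
  obtain ⟨K, hK0, hK⟩ := (LinearMap.injective_iff_antilipschitz (L : E →ₗ[ℝ] F)).mp hLinj
  have hLlow : ∀ w : E, ‖w‖ ≤ K * ‖L w‖ := fun w =>
    ZeroHomClass.bound_of_antilipschitz (L : E →ₗ[ℝ] F) hK w
  have hK0' : (0 : ℝ) < K := hK0
  obtain ⟨r, hr, h1, h2, h3⟩ := hatMap_local e he x₀ (1 / (4 * K)) (by positivity)
  refine ⟨2 * K, by positivity, κ.source ∩ κ ⁻¹' (Metric.ball (κ x₀) r), ?_, inter_subset_left,
    ?_⟩
  · apply inter_mem (extChartAt_source_mem_nhds x₀)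
    exact (continuousAt_extChartAt x₀).preimage_mem_nhds (Metric.ball_mem_nhds _ hr)
  · intro x hx y hy
    have hx1 : hatMap e x₀ (κ x) = e x := by
      show e (κ.symm (κ x)) = e x
      rw [κ.left_inv hx.1]
    have hy1 : hatMap e x₀ (κ y) = e y := by
      show e (κ.symm (κ y)) = e y
      rw [κ.left_inv hy.1]
    have h4 := h3 (κ y) hy.2 (κ x) hx.2
    rw [hx1, hy1] at h4
    have h5 := h2 (κ y) hy.2
    have h6 := hLlow (κ x - κ y)
    have h7 : ‖L (κ x - κ y)‖ ≤ dist x y + 1 / (4 * K) * ‖κ x - κ y‖ +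
        1 / (4 * K) * ‖κ x - κ y‖ := by
      have e1 : L (κ x - κ y) = (e x - e y) -
          (e x - e y - fderiv ℝ (hatMap e x₀) (κ y) (κ x - κ y)) -
          (fderiv ℝ (hatMap e x₀) (κ y) - L) (κ x - κ y) := by
        simp only [sub_apply]
        abel
      rw [e1]
      have t1 := norm_sub_le ((e x - e y) -
          (e x - e y - fderiv ℝ (hatMap e x₀) (κ y) (κ x - κ y)))
          ((fderiv ℝ (hatMap e x₀) (κ y) - L) (κ x - κ y))
      have t2 := norm_sub_le (e x - e y)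
          (e x - e y - fderiv ℝ (hatMap e x₀) (κ y) (κ x - κ y))
      have t3 : ‖(fderiv ℝ (hatMap e x₀) (κ y) - L) (κ x - κ y)‖ ≤
          1 / (4 * K) * ‖κ x - κ y‖ :=
        (ContinuousLinearMap.le_opNorm _ _).trans (mul_le_mul_of_nonneg_right h5 (norm_nonneg _))
      rw [hiso]
      linarith
    have h8 : (K : ℝ) * (1 / (4 * K) * ‖κ x - κ y‖) = 1 / 4 * ‖κ x - κ y‖ := by
      field_simp
    have h9 : (K : ℝ) * ‖L (κ x - κ y)‖ ≤ K * (dist x y + 1 / (4 * K) * ‖κ x - κ y‖ +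
        1 / (4 * K) * ‖κ x - κ y‖) := mul_le_mul_of_nonneg_left h7 hK0'.le
    have h10 : (K : ℝ) * (dist x y + 1 / (4 * K) * ‖κ x - κ y‖ +
        1 / (4 * K) * ‖κ x - κ y‖) = K * dist x y + 1 / 2 * ‖κ x - κ y‖ := by
      rw [mul_add, mul_add, h8]; ring
    linarith

theorem jac_lip [CompactSpace M] (e : M → F) (hiso : ∀ x y, dist x y = ‖e x - e y‖)
    (he : ContMDiff 𝓘(ℝ, E) 𝓘(ℝ, F) 2 e)
    (hinj : ∀ x, Function.Injective (dm E e x)) (G G' : M → M)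
    (hG : ContMDiff 𝓘(ℝ, E) 𝓘(ℝ, E) 2 G)
    (hG' : ContMDiff 𝓘(ℝ, E) 𝓘(ℝ, E) 2 G') (h : ∀ x, G' (G x) = x) :
    ∃ L : NNReal, LipschitzWith L (jac E e G) := by
  have he1 : ContMDiff 𝓘(ℝ, E) 𝓘(ℝ, F) 1 e := he.of_le (by norm_num)
  have hG1 : ContMDiff 𝓘(ℝ, E) 𝓘(ℝ, E) 1 G := hG.of_le (by norm_num)
  have hG1' : ContMDiff 𝓘(ℝ, E) 𝓘(ℝ, E) 1 G' := hG'.of_le (by norm_num)
  have hloc : LocallyLipschitz (jac E e G) := by
    intro x₀
    set κ := extChartAt 𝓘(ℝ, E) x₀ with hκ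
    have h1 : ContDiffAt ℝ 1 (fun y => lh (e ∘ G) x₀ y - lh e x₀ y) (κ x₀) :=
      (lh_contDiffAt (e ∘ G) (he.comp hG) x₀
        (inj_comp e he1 hinj G G' hG1 hG1' h x₀)).sub (lh_contDiffAt e he x₀ (hinj x₀))
    obtain ⟨K, t, ht, hK⟩ := h1.exists_lipschitzOnWith
    obtain ⟨C, hC, W, hW, hWs, hWC⟩ := chart_lip e hiso he1 hinj x₀
    refine ⟨K * C.toNNReal, W ∩ κ ⁻¹' t, ?_, ?_⟩
    · exact inter_mem hW ((continuousAt_extChartAt x₀).preimage_mem_nhds ht)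
    · apply LipschitzOnWith.of_dist_le_mul
      intro x hx y hy
      rw [Real.dist_eq, jac_local e he1 hinj G G' hG1 hG1' h x₀ x (hWs hx.1),
        jac_local e he1 hinj G G' hG1 hG1' h x₀ y (hWs hy.1)]
      have h2 := hK.dist_le_mul _ hx.2 _ hy.2
      rw [Real.dist_eq] at h2
      refine h2.trans ?_
      have h3 := hWC x hx.1 y hy.1
      rw [dist_eq_norm]
      push_cast
      rw [Real.coe_toNNReal C hC, mul_assoc]
      exact mul_le_mul_of_nonneg_left h3 K.coe_nonneg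
  have hloc' : LocallyLipschitzOn univ (jac E e G) := hloc.locallyLipschitzOn
  obtain ⟨L, hL⟩ := hloc'.exists_lipschitzOnWith_of_compact isCompact_univ
  exact ⟨L, lipschitzOnWith_univ.mp hL⟩

end lip

end Pool.Agent.Y321.PJ
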