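import Pool.Agent.H789R2.AN.Tr

set_option autoImplicit false

open Filter Topology Set Metric

namespace Pool.Agent.Y321.PJ

open Pool.Agent.H789R2.AN

variable {X : Type*} [MetricSpace X]

theorem geo_tendsto (c : ℝ) : Tendsto (fun n : ℕ => c * (1 / 2 : ℝ) ^ n) atTop (𝓝 0) := by
  have := (tendsto_pow_atTop_nhds_zero_of_lt_one (by norm_num : (0:ℝ) ≤ 1 / 2)
    (by norm_num)).const_mul c
  simpa using this

/-- Expansivity. -/
theorem expansive {g : X ≃ₜ X} {c : ℝ} (h : LP g c) {x y : X} (h1 : SR g c x y)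
    (h2 : SR g.symm c x y) : x = y := by
  have key : ∀ m : ℕ, dist x y ≤ c * (1 / 2) ^ m := by
    intro m
    have h3 : SR g c (g.symm^[m] x) (g.symm^[m] y) := by
      intro k
      rcases le_total k m with hk | hk
      · have e : ∀ z : X, g^[k] (g.symm^[m] z) = g.symm^[m - k] z := by
          intro z
          have : g.symm^[m] z = g.symm^[k] (g.symm^[m - k] z) := by
            rw [← Function.iterate_add_apply]; congr 1; omega
          rw [this, iterR]
        rw [e, e]; exact h2 _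
      · have e : ∀ z : X, g^[k] (g.symm^[m] z) = g^[k - m] z := by
          intro z
          have : g^[k] (g.symm^[m] z) = g^[k - m] (g^[m] (g.symm^[m] z)) := by
            rw [← Function.iterate_add_apply g (k - m) m]; congr 1; omega
          rw [this, iterR]
        rw [e, e]; exact h1 _
    have h4 := h.cS _ _ h3 m
    rwa [iterR, iterR] at h4
  have : dist x y ≤ 0 := ge_of_tendsto' (geo_tendsto c) key
  exact dist_le_zero.mp this

/-- The omega limit set. -/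
def Om (g : X ≃ₜ X) (x : X) : Set X := {y | MapClusterPt y atTop (fun n : ℕ => g^[n] x)}

theorem mem_Om {g : X ≃ₜ X} {x y : X} : y ∈ Om g x ↔ ∀ W ∈ 𝓝 y, ∀ N : ℕ, ∃ n ≥ N,
    g^[n] x ∈ W := by
  rw [Om, mem_setOf_eq, mapClusterPt_iff_frequently]
  exact forall₂_congr fun W _ => frequently_atTop

theorem Om_nonempty [CompactSpace X] (g : X ≃ₜ X) (x : X) : (Om g x).Nonempty := by
  obtain ⟨y, hy⟩ := exists_clusterPt_of_compactSpace (map (fun n : ℕ => g^[n] x) atTop)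
  exact ⟨y, hy⟩

theorem Om_inv {g : X ≃ₜ X} {x : X} (y : X) : g y ∈ Om g x ↔ y ∈ Om g x := by
  rw [mem_Om, mem_Om]
  constructor
  · intro hy W hW N
    have h1 : g.symm ⁻¹' W ∈ 𝓝 (g y) := by
      apply g.symm.continuous.continuousAt.preimage_mem_nhds
      rwa [g.symm_apply_apply]
    obtain ⟨n, hn, h2⟩ := hy _ h1 (N + 1)
    refine ⟨n - 1, by omega, ?_⟩
    have h3 : g^[n] x = g (g^[n - 1] x) := by
      rw [← Function.iterate_succ_apply' g (n - 1)]
      congr 1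
      omega
    rw [mem_preimage, h3, g.symm_apply_apply] at h2
    exact h2
  · intro hy W hW N
    have h1 : g ⁻¹' W ∈ 𝓝 y := g.continuous.continuousAt.preimage_mem_nhds hW
    obtain ⟨n, hn, h2⟩ := hy _ h1 N
    refine ⟨n + 1, by omega, ?_⟩
    rw [Function.iterate_succ_apply']
    exact h2

/-- The unstable saturation of the omega limit set. -/
def Sat (g : X ≃ₜ X) (x : X) : Set X := {w | ∃ y ∈ Om g x, WS g.symm y w}

theorem sat_att [CompactSpace X] {g : X ≃ₜ X} {c : ℝ} (h : LP g c) (x : X) :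
    IsAtt g (closure (Sat g x)) := by
  have hSsat : ∀ w ∈ Sat g x, ∀ w', WS g.symm w w' → w' ∈ Sat g x := by
    rintro w ⟨y, hy, hyw⟩ w' hww'
    exact ⟨y, hy, hyw.trans hww'⟩
  have hSinv : ∀ w, g w ∈ Sat g x ↔ w ∈ Sat g x := by
    intro w
    constructor
    · rintro ⟨y, hy, hyw⟩
      refine ⟨g.symm y, (inv_symm Om_inv y).mpr hy, ?_⟩
      have := hyw.mapIter (φ := g.symm) (fun _ => rfl) 1
      simpa using this
    · rintro ⟨y, hy, hyw⟩
      refine ⟨g y, (Om_inv y).mpr hy, ?_⟩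
      rw [← WS.iter 1]
      simpa using hyw
  refine ⟨isClosed_closure, ?_, ?_, closure_sat h hSsat⟩
  · obtain ⟨y, hy⟩ := Om_nonempty g x
    exact ⟨y, subset_closure ⟨y, hy, WS.refl _ _⟩⟩
  · intro w
    have e1 : g ⁻¹' (Sat g x) = Sat g x := by
      ext w
      exact hSinv w
    have e2 := g.preimage_closure (Sat g x)
    rw [e1] at e2
    rw [← mem_preimage, e2]

/-- Points near `x` whose orbits come near a point of the closure of the saturation. -/
theorem sat_reach {g : X ≃ₜ X} {c : ℝ} (h : LP g c) {x v : X}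
    (hv : v ∈ closure (Sat g x)) {ε : ℝ} (hε : 0 < ε) (N : ℕ) :
    ∃ n ≥ N, ∃ z, dist z x < ε ∧ dist (g^[n] z) v < ε := by
  rw [Metric.mem_closure_iff] at hv
  obtain ⟨w, ⟨y, hy, hyw⟩, hvw⟩ := hv (ε / 2) (half_pos hε)
  set ε' := min (ε / 2) c with hε'
  have hε'0 : 0 < ε' := lt_min (half_pos hε) h.c_pos
  obtain ⟨δ, hδ, hlp⟩ := h.lp ε' hε'0
  obtain ⟨m, hm⟩ := hyw.eventually_lt (half_pos hδ)
  have h1 := hm m le_rfl
  obtain ⟨N', hN'⟩ := eventually_atTop.mp ((tendsto_order.mp (geo_tendsto c)).2 ε hε)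
  have h2 : {y' | dist (g.symm^[m] y') (g.symm^[m] y) < δ / 2} ∈ 𝓝 y := by
    have hcont : Continuous fun s => dist (g.symm^[m] s) (g.symm^[m] y) :=
      (g.symm.continuous.iterate m).dist continuous_const
    exact (isOpen_lt hcont continuous_const).mem_nhds (by
      show dist (g.symm^[m] y) (g.symm^[m] y) < δ / 2
      rw [dist_self]; linarith)
  obtain ⟨n, hn, h3⟩ := mem_Om.mp hy _ h2 (m + N' + N)
  have e1 : g.symm^[m] (g^[n] x) = g^[n - m] x := by
    have : g^[n] x = g^[m] (g^[n - m] x) := by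
      rw [← Function.iterate_add_apply]
      congr 1
      omega
    rw [this, iterL]
  have h3' : dist (g^[n - m] x) (g.symm^[m] y) < δ / 2 := by
    rw [← e1]; exact h3
  have h4 : dist (g.symm^[m] w) (g^[n - m] x) < δ := by
    have := dist_triangle (g.symm^[m] w) (g.symm^[m] y) (g^[n - m] x)
    rw [dist_comm (g.symm^[m] w) (g.symm^[m] y), dist_comm (g.symm^[m] y) (g^[n - m] x)] at this
    linarith
  obtain ⟨z, hz1, hz2⟩ := hlp _ _ h4
  have hz2' := h.cU _ _ (hz2.mono (min_le_right _ _)) (n - m)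
  rw [iterL] at hz2'
  have hz3 := lt_of_le_of_lt hz2' (hN' (n - m) (by omega))
  refine ⟨n, by omega, g.symm^[n - m] z, ?_, ?_⟩
  · rw [dist_comm]
    exact hz3
  · have e2 : g^[n] (g.symm^[n - m] z) = g^[m] z := by
      have : g^[n] (g.symm^[n - m] z) = g^[m] (g^[n - m] (g.symm^[n - m] z)) := by
        rw [← Function.iterate_add_apply g m (n - m)]
        congr 1
        omega
      rw [this, iterR]
    rw [e2, dist_comm]
    have h6 := hz1 m
    rw [iterR] at h6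
    have h7 : ε' ≤ ε / 2 := min_le_left _ _
    have := dist_triangle v w (g^[m] z)
    linarith

theorem Om_subset {g : X ≃ₜ X} {A : Set X} (hA : IsAtt g A) {x : X} (hx : x ∈ A) :
    Om g x ⊆ A := by
  intro y hy
  rw [← hA.closed.closure_eq, mem_closure_iff_nhds]
  intro W hW
  obtain ⟨n, -, hn⟩ := mem_Om.mp hy W hW 0
  exact ⟨_, hn, (inv_iter hA.inv n x).mpr hx⟩

theorem closure_sat_subset {g : X ≃ₜ X} {A : Set X} (hA : IsAtt g A) {x : X} (hx : x ∈ A) :
    closure (Sat g x) ⊆ A := by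
  apply closure_minimal _ hA.closed
  rintro w ⟨y, hy, hyw⟩
  exact hA.sat y (Om_subset hA hx hy) w hyw

/-- Transitivity of minimal attractors. -/
theorem minAtt_trans [CompactSpace X] {g : X ≃ₜ X} {c : ℝ} (h : LP g c) {A : Set X}
    (hA : MinAtt g A) {x v : X} (hx : x ∈ A) (hv : v ∈ A) {ε : ℝ} (hε : 0 < ε) (N : ℕ) :
    ∃ n ≥ N, ∃ z, dist z x < ε ∧ dist (g^[n] z) v < ε :=
  sat_reach h (hA.2 _ (sat_att h x) (closure_sat_subset hA.1 hx) hv) hε N

/-- Uniform version. -/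
theorem minAtt_trans_unif [CompactSpace X] {g : X ≃ₜ X} {c : ℝ} (h : LP g c) {A : Set X}
    (hA : MinAtt g A) {ε : ℝ} (hε : 0 < ε) :
    ∃ K : ℕ, ∀ x ∈ A, ∀ v ∈ A, ∃ n, 1 ≤ n ∧ n ≤ K ∧ ∃ z, dist z x < ε ∧ dist (g^[n] z) v < ε := by
  obtain ⟨t, htA, htfin, hcov⟩ := hA.1.closed.isCompact.finite_cover_balls (half_pos hε)
  have hch : ∀ a b : X, ∃ n : ℕ, 1 ≤ n ∧ (a ∈ A → b ∈ A →
      ∃ z, dist z a < ε / 2 ∧ dist (g^[n] z) b < ε / 2) := by
    intro a b
    by_cases hab : a ∈ A ∧ b ∈ A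
    · obtain ⟨n, hn, z, h1, h2⟩ := minAtt_trans h hA hab.1 hab.2 (half_pos hε) 1
      exact ⟨n, hn, fun _ _ => ⟨z, h1, h2⟩⟩
    · exact ⟨1, le_rfl, fun ha hb => absurd ⟨ha, hb⟩ hab⟩
  choose n hn1 hn using hch
  obtain ⟨K, hK⟩ := ((htfin.prod htfin).image (fun p : X × X => n p.1 p.2)).bddAbove
  refine ⟨K, fun x hx v hv => ?_⟩
  obtain ⟨a, ha, hxa⟩ := mem_iUnion₂.mp (hcov hx)
  obtain ⟨b, hb, hvb⟩ := mem_iUnion₂.mp (hcov hv)
  obtain ⟨z, h1, h2⟩ := hn a b (htA ha) (htA hb)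
  refine ⟨n a b, hn1 a b, hK ⟨(a, b), ⟨ha, hb⟩, rfl⟩, z, ?_, ?_⟩
  · have := dist_triangle z a x
    rw [mem_ball, dist_comm] at hxa
    linarith
  · have := dist_triangle (g^[n a b] z) b v
    rw [mem_ball, dist_comm] at hvb
    linarith

/-- The basins of the minimal attractors fill a dense set. -/
theorem exists_bas [CompactSpace X] {g : X ≃ₜ X} {c : ℝ} (h : LP g c) {V : Set X}
    (hV : IsOpen V) (hVn : V.Nonempty) : ∃ A, MinAtt g A ∧ (V ∩ Bas g A).Nonempty := by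
  obtain ⟨x, hx⟩ := hVn
  obtain ⟨A, hAs, hA⟩ := exists_minAtt (sat_att h x)
  obtain ⟨v, hv⟩ := hA.1.nonempty
  obtain ⟨η, hη, hball⟩ := Metric.isOpen_iff.mp hV x hx
  obtain ⟨δ, hδ, hnear⟩ := h.near
  obtain ⟨n, -, z, hz1, hz2⟩ := sat_reach h (hAs hv) (lt_min hη hδ) 0
  refine ⟨A, hA, z, hball (lt_of_lt_of_le hz1 (min_le_left _ _)), ?_⟩
  obtain ⟨w, hw, h1⟩ := hnear A hA.1 v hv _ (lt_of_lt_of_le hz2 (min_le_right _ _))
  exact bas_of_iter hA.1.inv (n := n) ⟨w, hw, WS.of_SR (h.cS _ _ h1)⟩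

/-- A dense set of points goes from a minimal repeller to a minimal attractor. -/
theorem exists_connection [CompactSpace X] {g : X ≃ₜ X} {c : ℝ} (h : LP g c) {V : Set X}
    (hV : IsOpen V) (hVn : V.Nonempty) : ∃ A R, MinAtt g A ∧ MinAtt g.symm R ∧
      (V ∩ Bas g A ∩ Bas g.symm R).Nonempty := by
  obtain ⟨A, hA, h1⟩ := exists_bas h hV hVn
  obtain ⟨R, hR, h2⟩ := exists_bas h.symm (hV.inter (isOpen_bas h hA.1)) h1
  exact ⟨A, R, hA, hR, h2⟩

/-- Near each point of the basin of a minimal attractor, on its unstable set, there are points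
of the stable set of the orbit of a prescribed point of the attractor. -/
theorem near_stable [CompactSpace X] {g : X ≃ₜ X} {c : ℝ} (h : LP g c) {A : Set X}
    (hA : MinAtt g A) {p x : X} (hp : p ∈ A) (hx : x ∈ Bas g A) {ε : ℝ} (hε : 0 < ε) :
    ∃ (k : ℕ) (y : X), dist x y < ε ∧ WS g.symm x y ∧ WS g (g.symm^[k] p) y := by
  obtain ⟨a, ha, hxa⟩ := hx
  set ε₂ := min (ε / 2) c with hε₂
  have hε₂0 : 0 < ε₂ := lt_min (half_pos hε) h.c_pos
  obtain ⟨δ₂, hδ₂, hlp₂⟩ := h.lp ε₂ hε₂0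
  set ε₁ := min (δ₂ / 4) c with hε₁
  have hε₁0 : 0 < ε₁ := lt_min (by linarith) h.c_pos
  obtain ⟨δ₁, hδ₁, hlp₁⟩ := h.lp ε₁ hε₁0
  obtain ⟨m, hm⟩ := hxa.eventually_lt (ε := δ₂ / 4) (by linarith)
  have h0 := hm m le_rfl
  obtain ⟨n, -, z, hz1, hz2⟩ := minAtt_trans h hA ((inv_iter hA.1.inv m a).mpr ha) hp
    (lt_min hδ₁ (by linarith : 0 < δ₂ / 4)) 0
  have hz2' : dist p (g^[n] z) < δ₁ := by
    rw [dist_comm]; exact lt_of_lt_of_le hz2 (min_le_left _ _)
  have hz1' : dist z (g^[m] a) < δ₂ / 4 := lt_of_lt_of_le hz1 (min_le_right _ _)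
  obtain ⟨w, hw1, hw2⟩ := hlp₁ _ _ hz2'
  have h3 := hw2 n
  rw [iterL] at h3
  have h4 : dist (g.symm^[n] w) (g^[m] x) < δ₂ := by
    have t1 := dist_triangle (g.symm^[n] w) z (g^[m] x)
    have t2 := dist_triangle z (g^[m] a) (g^[m] x)
    rw [dist_comm] at h3
    rw [dist_comm (g^[m] a)] at t2
    have : ε₁ ≤ δ₂ / 4 := min_le_left _ _
    linarith
  obtain ⟨y, hy1, hy2⟩ := hlp₂ _ _ h4
  have h5 := hy2 m
  rw [iterL] at h5
  refine ⟨n + m, g.symm^[m] y, ?_, ?_, ?_⟩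
  · have : ε₂ ≤ ε / 2 := min_le_left _ _
    linarith
  · have h6 : WS g.symm (g^[m] x) y := WS.of_SR (h.cU _ _ (hy2.mono (min_le_right _ _)))
    rw [← iterL g m x]
    exact (WS.iter m).mpr h6
  · have h6 : WS g (g.symm^[n] w) y := WS.of_SR (h.cS _ _ (hy1.mono (min_le_right _ _)))
    have h7 : WS g p w := WS.of_SR (h.cS _ _ (hw1.mono (min_le_right _ _)))
    have h8 : WS g (g.symm^[n] p) (g.symm^[n] w) := by
      rw [← WS.iter n, iterR, iterR]; exact h7
    have h9 := h8.trans h6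
    rw [← WS.iter m, iterR, add_comm, Function.iterate_add_apply, iterR]
    exact h9

/-- Heteroclinic points between prescribed points of a repeller and an attractor. -/
theorem exists_heteroclinic [CompactSpace X] {g : X ≃ₜ X} {c : ℝ} (h : LP g c) {A R : Set X}
    (hA : MinAtt g A) (hR : MinAtt g.symm R) {V : Set X} (hV : IsOpen V)
    (hne : (V ∩ Bas g A ∩ Bas g.symm R).Nonempty) {p q : X} (hp : p ∈ A) (hq : q ∈ R) :
    ∃ (j k : ℕ) (x : X), x ∈ V ∧ WS g (g.symm^[k] p) x ∧ WS g.symm (g^[j] q) x := by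
  obtain ⟨x, ⟨hxV, hxA⟩, hxR⟩ := hne
  obtain ⟨η, hη, hball⟩ := Metric.isOpen_iff.mp hV x hxV
  obtain ⟨j, y, hy0, hy1, hy2⟩ := near_stable h.symm hR hq hxR (half_pos hη)
  have hy1' : WS g x y := hy1
  have hyA : y ∈ Bas g A := by
    obtain ⟨a, ha, hxa⟩ := hxA
    exact ⟨a, ha, hy1'.symm'.trans hxa⟩
  obtain ⟨k, z, hz0, hz1, hz2⟩ := near_stable h hA hp hyA (half_pos hη)
  refine ⟨j, k, z, hball ?_, hz2, ?_⟩
  · rw [mem_ball, dist_comm]
    have := dist_triangle x y z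
    linarith
  · exact WS.trans hy2 hz1

/-- If a minimal attractor is everything, the map is transitive. -/
theorem trans_of_min_univ [CompactSpace X] {g : X ≃ₜ X} {c : ℝ} (h : LP g c)
    (hA : MinAtt g univ) (U V : Set X) (hU : IsOpen U) (hUn : U.Nonempty)
    (hV : IsOpen V) (hVn : V.Nonempty) : ∃ n : ℕ, (g^[n] '' U ∩ V).Nonempty :=
  transitive_of_unique h (fun B hB => univ_subset_iff.mp (hA.2 B hB (subset_univ _))) U V hU hUn
    hV hVn

end Pool.Agent.Y321.PJ
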