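import Pool.Agent.Y321.PJ.Clos

set_option autoImplicit false

open Filter Topology Set Metric MeasureTheory

open scoped ENNReal

namespace Pool.Agent.Y321.PJ

open Pool.Agent.H789R2.AN Pool.Agent.H721R2

variable {X E : Type*} [MetricSpace X] [NormedAddCommGroup E] [NormedSpace ℝ E]

/-- An attractor whose basin is not contracted in volume is everything. -/
theorem att_univ_of_vol [CompactSpace X] [ConnectedSpace X] [MeasurableSpace X] [BorelSpace X]
    {g : X ≃ₜ X} {c : ℝ} (h : LP g c) {A : Set X} (hA : IsAtt g A) (μ : Measure X)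
    [IsFiniteMeasure μ] [μ.IsOpenPosMeasure] (κ : ℝ≥0∞) (hκ : κ ≠ 0)
    (hμ : ∀ W, IsOpen W → (∀ y ∈ W, ∃ a ∈ A, SR g c y a) → ∀ n : ℕ,
      κ * μ W ≤ μ (g^[n] '' W)) : A = univ := by
  obtain ⟨δ, hδ, hnear⟩ := h.near
  have hAn := hA.nonempty
  set U : Set X := {y | infDist y A < δ} with hU
  have hUo : IsOpen U := isOpen_lt (continuous_infDist_pt A) continuous_const
  have hAU : A ⊆ U := fun a ha => by
    show infDist a A < δ
    rw [infDist_zero_of_mem ha]; exact hδ
  have hUa : ∀ y ∈ U, ∃ a ∈ A, SR g c y a := by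
    intro y hy
    obtain ⟨x, hx, hxy⟩ := (infDist_lt_iff hAn).mp hy
    exact hnear A hA x hx y hxy
  set W : Set X := U \ A with hW
  have hWo : IsOpen W := hUo.sdiff hA.closed
  have hWe : W = ∅ := by
    by_contra hne
    have hWn : W.Nonempty := nonempty_iff_ne_empty.mpr hne
    have hpos : 0 < κ * μ W := ENNReal.mul_pos hκ (hWo.measure_pos μ hWn).ne'
    let B : ℕ → Set X := fun n => {x | infDist x A ≤ c * (1 / 2) ^ n} \ A
    have hBm : ∀ n, MeasurableSet (B n) := fun n =>
      ((isClosed_le (continuous_infDist_pt A) continuous_const).measurableSet).diff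
        hA.closed.measurableSet
    have hBanti : Antitone B := by
      intro m n hmn x hx
      refine ⟨?_, hx.2⟩
      have h1 : infDist x A ≤ c * (1 / 2) ^ n := hx.1
      have h2 : (1 / 2 : ℝ) ^ n ≤ (1 / 2) ^ m :=
        pow_le_pow_of_le_one (by norm_num) (by norm_num) hmn
      exact h1.trans (mul_le_mul_of_nonneg_left h2 h.c_pos.le)
    have hBe : ⋂ n, B n = ∅ := by
      apply eq_empty_of_forall_notMem
      intro x hx
      rw [mem_iInter] at hx
      have h1 : infDist x A ≤ 0 := ge_of_tendsto' (geo_tendsto c) fun n => (hx n).1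
      have h2 : x ∈ closure A := (mem_closure_iff_infDist_zero hAn).mpr
        (le_antisymm h1 infDist_nonneg)
      rw [hA.closed.closure_eq] at h2
      exact (hx 0).2 h2
    have hlim : Tendsto (fun n => μ (B n)) atTop (𝓝 0) := by
      have := tendsto_measure_iInter_atTop (μ := μ) (fun n => (hBm n).nullMeasurableSet) hBanti
        ⟨0, measure_ne_top μ _⟩
      rwa [hBe, measure_empty] at this
    have hle : ∀ n, κ * μ W ≤ μ (B n) := by
      intro n
      refine (hμ W hWo (fun y hy => hUa y hy.1) n).trans (measure_mono ?_)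
      rintro _ ⟨y, hy, rfl⟩
      obtain ⟨a, ha, hya⟩ := hUa y hy.1
      refine ⟨?_, fun hc => hy.2 ((inv_iter hA.inv n y).mp hc)⟩
      exact (infDist_le_dist_of_mem ((inv_iter hA.inv n a).mpr ha)).trans (h.cS _ _ hya n)
    exact absurd (ge_of_tendsto' hlim hle) (not_le.mpr hpos)
  have hUA : U ⊆ A := by
    intro y hy
    by_contra hyA
    have : y ∈ W := ⟨hy, hyA⟩
    rw [hWe] at this
    exact this
  have hopen : IsOpen A := by
    have : A = U := Subset.antisymm hAU hUA
    rw [this]; exact hUo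
  exact IsClopen.eq_univ ⟨hA.closed, hopen⟩ hAn

/-- A proper minimal attractor contains a volume contracting periodic orbit. -/
theorem exists_neg [CompactSpace X] [ConnectedSpace X] [MeasurableSpace X] [BorelSpace X]
    (S : HypSys X E) {c : ℝ} (h : LP S.g c) {A : Set X} (hA : MinAtt S.g A) (hne : A ≠ univ)
    {φ : X → ℝ} {L B : ℝ} (hL : 0 ≤ L)
    (hφ : ∀ x y, |φ x - φ y| ≤ L * dist x y) (hB : ∀ x, |φ x| ≤ B)
    (μ : Measure X) [IsFiniteMeasure μ] [μ.IsOpenPosMeasure]
    (hμ : ∀ C : ℝ, ∃ κ : ℝ≥0∞, κ ≠ 0 ∧ ∀ W, IsOpen W → ∀ n : ℕ,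
      (∀ y ∈ W, -C ≤ birk S.g φ n y) → κ * μ W ≤ μ (S.g^[n] '' W)) :
    ∃ p ∈ A, ∃ q : ℕ, 1 ≤ q ∧ S.g^[q] p = p ∧ birk S.g φ q p < 0 := by
  by_contra hcon
  push Not at hcon
  obtain ⟨C, hC⟩ := birk_bound S h hA hL hφ hB hcon
  obtain ⟨κ, hκ, h1⟩ := hμ C
  apply hne
  apply att_univ_of_vol h hA.1 μ κ hκ
  intro W hW hWA n
  apply h1 W hW n
  intro y hy
  obtain ⟨a, ha, hya⟩ := hWA y hy
  exact hC a ha y hya n

end Pool.Agent.Y321.PJ
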